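import Mathlib

/-!
# Integer valued geodesic metrics

Conventions of the project (namespace `IE`, iterated electrification).
`GM X` is an integer valued metric on `X` in which any two points are joined by a
geodesic sequence (`interp`). `Hyp D` is the four point condition with additive constant `D`
(so `D` is twice the usual Gromov constant). All groups act on the left by isometries (`Inv`).
-/

namespace IE

/-- An integer valued geodesic metric. -/
structure GM (X : Type*) where
  d : X → X → ℕ
  d_self : ∀ x, d x x = 0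
  eq_of_d : ∀ x y, d x y = 0 → x = y
  d_comm : ∀ x y, d x y = d y x
  tri : ∀ x y z, d x z ≤ d x y + d y z
  interp : ∀ x y k, k ≤ d x y → ∃ z, d x z = k ∧ d z y = d x y - k

namespace GM

variable {X : Type*} (S : GM X)

/-- `z` lies on a geodesic from `x` to `y` (written `z ∈ I(x,y)` in comments). -/
def Btw (x z y : X) : Prop := S.d x z + S.d z y = S.d x y

/-- The four point condition with constant `D`. -/
def Hyp (D : ℕ) : Prop := ∀ x y z w,
  S.d x y + S.d z w ≤ S.d x z + S.d y w + D ∨ S.d x y + S.d z w ≤ S.d x w + S.d y z + D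

/-- The group `Γ` acts by isometries. -/
def Inv (Γ : Type*) [Group Γ] [MulAction Γ X] : Prop :=
  ∀ (g : Γ) (x y : X), S.d (g • x) (g • y) = S.d x y

/-- Displacement of `x` under `g`. -/
def disp {Γ : Type*} [Group Γ] [MulAction Γ X] (g : Γ) (x : X) : ℕ := S.d x (g • x)

/-- Minimal displacement `[g]`. -/
noncomputable def tl {Γ : Type*} [Group Γ] [MulAction Γ X] (g : Γ) : ℕ :=
  sInf (Set.range fun x : X => S.disp g x)

/-- The set of points of (nearly) minimal displacement, for the constant `D`. -/
def Yset {Γ : Type*} [Group Γ] [MulAction Γ X] (D : ℕ) (g : Γ) : Set X :=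
  {x | S.disp g x ≤ S.tl g + (3 * D + 1)}

/-- `Y` is `q`-quasiconvex (and nonempty). -/
def Qc (q : ℕ) (Y : Set X) : Prop :=
  Y.Nonempty ∧ ∀ x ∈ Y, ∀ y ∈ Y, ∀ p, S.Btw x p y → ∃ y' ∈ Y, S.d p y' ≤ q

/-- Nearest points of `Y` to `x`. -/
def near (Y : Set X) (x : X) : Set X := {y | y ∈ Y ∧ ∀ y' ∈ Y, S.d x y ≤ S.d x y'}

/-- Distance of the nearest point projections to `Y`. -/
noncomputable def rho (Y : Set X) (x x' : X) : ℕ :=
  sSup {m | ∃ y ∈ S.near Y x, ∃ y' ∈ S.near Y x', m = S.d y y'}

/-! ### Elementary facts -/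

theorem btw_left (x y : X) : S.Btw x x y := by simp [Btw, S.d_self]

theorem btw_right (x y : X) : S.Btw x y y := by simp [Btw, S.d_self]

theorem btw_symm {x z y : X} (h : S.Btw x z y) : S.Btw y z x := by
  unfold Btw at *
  rw [S.d_comm y z, S.d_comm z x, S.d_comm y x]; omega

theorem btw_le_left {x z y : X} (h : S.Btw x z y) : S.d x z ≤ S.d x y := by
  unfold Btw at h; omega

theorem btw_le_right {x z y : X} (h : S.Btw x z y) : S.d z y ≤ S.d x y := by
  unfold Btw at h; omega

theorem exists_btw (x y : X) (k : ℕ) (hk : k ≤ S.d x y) :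
    ∃ z, S.Btw x z y ∧ S.d x z = k := by
  obtain ⟨z, h1, h2⟩ := S.interp x y k hk
  exact ⟨z, by unfold Btw; omega, h1⟩

/-- Subintervals: `p ∈ I(x,y)`, `q ∈ I(x,p)` implies `q ∈ I(x,y)`, `p ∈ I(q,y)`. -/
theorem btw_trans {x q p y : X} (h : S.Btw x p y) (h' : S.Btw x q p) :
    S.Btw x q y ∧ S.Btw q p y := by
  unfold Btw at *
  have h1 := S.tri x q y
  have h2 := S.tri q p y
  omega

theorem btw_trans' {x q p y : X} (h : S.Btw x p y) (h' : S.Btw p q y) :
    S.Btw x q y ∧ S.Btw x p q := by
  unfold Btw at *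
  have h1 := S.tri x q y
  have h2 := S.tri x p q
  omega

/-- A geodesic path as a function. -/
theorem exists_path (x y : X) : ∃ p : ℕ → X, p 0 = x ∧ p (S.d x y) = y ∧
    (∀ i j, i ≤ j → j ≤ S.d x y → S.d (p i) (p j) = j - i) ∧
    (∀ i, i ≤ S.d x y → S.Btw x (p i) y) := by
  generalize hn : S.d x y = n
  induction n generalizing y with
  | zero =>
    have : x = y := S.eq_of_d x y hn
    subst this
    refine ⟨fun _ => x, rfl, rfl, ?_, ?_⟩
    · intro i j hij hj; rw [S.d_self]; omega
    · intro i hi; exact S.btw_left x x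
  | succ n ih =>
    obtain ⟨z, hz1, hz2⟩ := S.interp x y n (by omega)
    obtain ⟨p, hp0, hpn, hd, hb⟩ := ih z hz1
    have hxz : S.Btw x z y := by unfold Btw; omega
    refine ⟨fun i => if i ≤ n then p i else y, ?_, ?_, ?_, ?_⟩
    · simp [hp0]
    · simp
    · intro i j hij hj
      by_cases hj' : j ≤ n
      · have hi' : i ≤ n := by omega
        simp only [hj', hi', if_true]
        exact hd i j hij hj'
      · have hj'' : j = n + 1 := by omega
        subst hj''
        by_cases hi' : i ≤ n
        · simp only [hi', if_true, hj', if_false]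
          have h1 := hd i n hi' le_rfl
          rw [hpn] at h1
          have h2 := S.tri (p i) z y
          have h3 := hb i hi'
          have h4 := hd 0 i (Nat.zero_le _) hi'
          rw [hp0] at h4
          have h5 := S.tri x (p i) y
          unfold Btw at h3
          omega
        · have : i = n + 1 := by omega
          subst this
          simp only [hj', if_false]
          rw [S.d_self]; omega
    · intro i hi
      by_cases hi' : i ≤ n
      · simp only [hi', if_true]
        have := hb i hi'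
        exact (S.btw_trans hxz this).1
      · simp only [hi', if_false]
        exact S.btw_right x y

variable {Γ : Type*} [Group Γ] [MulAction Γ X]

variable {S} in
theorem Inv.btw (hS : S.Inv Γ) (g : Γ) {x z y : X} (h : S.Btw x z y) :
    S.Btw (g • x) (g • z) (g • y) := by
  unfold Btw at *; rw [hS, hS, hS]; exact h

variable {S} in
theorem Inv.disp_smul (hS : S.Inv Γ) (g h : Γ) (x : X) :
    S.disp g (h • x) = S.disp (h⁻¹ * g * h) x := by
  unfold disp
  rw [← hS h x]
  congr 1
  simp [mul_smul]

variable {S} in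
theorem Inv.disp_inv (hS : S.Inv Γ) (g : Γ) (x : X) : S.disp g⁻¹ x = S.disp g x := by
  unfold disp
  rw [← hS g x (g⁻¹ • x), smul_inv_smul, S.d_comm]

theorem exists_tl [Nonempty X] (g : Γ) : ∃ x : X, S.disp g x = S.tl g := by
  have h : (Set.range fun x : X => S.disp g x).Nonempty := Set.range_nonempty _
  obtain ⟨x, hx⟩ := Nat.sInf_mem h
  exact ⟨x, hx⟩

theorem tl_le (g : Γ) (x : X) : S.tl g ≤ S.disp g x := Nat.sInf_le ⟨x, rfl⟩

variable {S} in
theorem Inv.tl_conj (hS : S.Inv Γ) (g h : Γ) : S.tl (h * g * h⁻¹) = S.tl g := by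
  unfold tl
  congr 1
  ext m
  constructor
  · rintro ⟨x, rfl⟩
    refine ⟨h⁻¹ • x, ?_⟩
    simp only [hS.disp_smul, inv_inv]
  · rintro ⟨x, rfl⟩
    refine ⟨h • x, ?_⟩
    simp only [hS.disp_smul]
    congr 1; group

variable {S} in
theorem Inv.tl_inv (hS : S.Inv Γ) (g : Γ) : S.tl g⁻¹ = S.tl g := by
  unfold tl
  congr 1
  ext m
  simp only [Set.mem_range, hS.disp_inv]

theorem near_nonempty {Y : Set X} (hY : Y.Nonempty) (x : X) : (S.near Y x).Nonempty := by
  have h : ((fun y => S.d x y) '' Y).Nonempty := hY.image _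
  obtain ⟨y, hy, hy'⟩ := Nat.sInf_mem h
  refine ⟨y, hy, ?_⟩
  intro y' hy''
  have : sInf ((fun y => S.d x y) '' Y) ≤ S.d x y' := Nat.sInf_le ⟨y', hy'', rfl⟩
  have h2 : S.d x y = sInf ((fun y => S.d x y) '' Y) := hy'
  omega

end GM

end IE
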