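import Pool.Agent.W_MP_3ab0ed_al.Isom

/-!
# The class of actions

`ClassC S Γ n κ T A`: `Γ` acts by isometries on the integer metric space `(X, S)` which satisfies the four
point condition with constant `2`;
`c1`: every element is an `n`-torsion element or has translation length at least `1/T`;
`c2`: if two nontrivial elements `u, v` move two points at distance `> A` by at most `κ`, then
`u^n ≠ 1` and `u`, `v` commute.
-/

namespace IE

structure ClassC {X : Type*} (S : GM X) (Γ : Type*) [Group Γ] [MulAction Γ X]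
    (n κ T A : ℕ) : Prop where
  inv : S.Inv Γ
  hyp : S.Hyp 2
  c1 : ∀ g : Γ, g ^ n = 1 ∨ ∀ (x : X) (j : ℕ), j ≤ T * S.disp (g ^ j) x
  c2 : ∀ u v : Γ, u ≠ 1 → v ≠ 1 → ∀ x y : X, S.disp u x ≤ κ → S.disp u y ≤ κ →
    S.disp v x ≤ κ → S.disp v y ≤ κ → A < S.d x y → u ^ n ≠ 1 ∧ u * v = v * u

end IE
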