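import Pool.Agent.W_MP_3ab0ed_al.Isom

/-!
# Displacement of commutators along a long interval
-/

namespace IE
namespace GM

variable {X : Type*} {S : GM X} {D : ℕ} {Γ : Type*} [Group Γ] [MulAction Γ X]

/-- Moving a point of the tube around `I(x,y)` by an isometry with small displacement at `x,y`. -/
theorem Hyp.tube_move (h : S.Hyp D) (hS : S.Inv Γ) (g : Γ) {x y p : X} {b e : ℕ}
    (hx : S.disp g x ≤ b) (hy : S.disp g y ≤ b)
    (hp : S.d x p + S.d p y ≤ S.d x y + e)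
    (hfx : 2 * b + e + D < 2 * S.d x p) (hfy : 2 * b + e + D < 2 * S.d p y) :
    S.d x (g • p) + S.d (g • p) y ≤ S.d x y + (e + 3 * D) := by
  unfold disp at hx hy
  have a1 := h (g • x) (g • y) (g • p) x
  have a2 := h (g • x) (g • y) (g • p) y
  have a3 := h x (g • y) (g • x) y
  have e1 := hS g x p
  have e2 := hS g p y
  have e3 := hS g x y
  have c1 := S.d_comm (g • y) (g • p)
  have c2 := S.d_comm (g • x) x
  have c3 := S.d_comm (g • y) y
  have c4 := S.d_comm (g • p) x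
  have c5 := S.d_comm (g • y) x
  have c6 := S.d_comm (g • y) (g • x)
  have t1 := S.tri (g • x) x (g • p)
  have t2 := S.tri (g • p) y (g • y)
  have t3 := S.tri x y (g • y)
  have t4 := S.tri (g • x) x y
  rcases a1 with a1 | a1 <;> rcases a2 with a2 | a2 <;> rcases a3 with a3 | a3 <;> omega

theorem Inv.pos_move (hS : S.Inv Γ) (g : Γ) {x p : X} {b : ℕ} (hx : S.disp g x ≤ b) :
    S.d x p ≤ S.d x (g • p) + b ∧ S.d x (g • p) ≤ S.d x p + b := by
  unfold disp at hx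
  have e1 := hS g x p
  have t1 := S.tri (g • x) x (g • p)
  have t2 := S.tri x (g • x) (g • p)
  have c := S.d_comm (g • x) x
  omega

theorem Inv.pos_move' (hS : S.Inv Γ) (g : Γ) {y p : X} {b : ℕ} (hy : S.disp g y ≤ b) :
    S.d p y ≤ S.d (g • p) y + b ∧ S.d (g • p) y ≤ S.d p y + b := by
  have := hS.pos_move g (x := y) (p := p) hy
  rw [S.d_comm y p, S.d_comm y (g • p)] at this
  exact this

/-- The shift `d(x,q) - d(gx,q)` is nearly constant on the tube. -/
theorem Hyp.shift_const (h : S.Hyp D) (g : Γ) {x y q q' : X} {b e : ℕ}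
    (hx : S.disp g x ≤ b)
    (hq : S.d x q + S.d q y ≤ S.d x y + e) (hq' : S.d x q' + S.d q' y ≤ S.d x y + e)
    (hf : 2 * b + e + 2 * D < 2 * S.d x q) (hf' : 2 * b + e + 2 * D < 2 * S.d x q') :
    S.d x q + S.d (g • x) q' ≤ S.d x q' + S.d (g • x) q + D := by
  unfold disp at hx
  have a := h x q (g • x) q'
  have t1 := S.tri x (g • x) q
  have t2 := S.tri x (g • x) q'
  have c1 := S.d_comm q q'
  have c2 := S.d_comm q (g • x)
  rcases le_total (S.d x q) (S.d x q') with hc | hc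
  · have := h.tube_dist hq hq' hc
    rcases a with a | a <;> omega
  · have := h.tube_dist hq' hq hc
    rcases a with a | a <;> omega

/-- Commutators of two isometries with small displacement at `x,y` move the middle of the tube
by at most `e + 15 D`. -/
theorem Hyp.comm_disp (h : S.Hyp D) (hS : S.Inv Γ) (g k : Γ) {x y p : X} {b e : ℕ}
    (hgx : S.disp g x ≤ b) (hgy : S.disp g y ≤ b) (hkx : S.disp k x ≤ b) (hky : S.disp k y ≤ b)
    (hp : S.d x p + S.d p y ≤ S.d x y + e)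
    (hfx : 10 * b + e + 14 * D < 2 * S.d x p) (hfy : 10 * b + e + 14 * D < 2 * S.d p y) :
    S.disp (g * k * g⁻¹ * k⁻¹) p ≤ e + 15 * D := by
  have hgx' : S.disp g⁻¹ x ≤ b := by rw [hS.disp_inv]; exact hgx
  have hgy' : S.disp g⁻¹ y ≤ b := by rw [hS.disp_inv]; exact hgy
  have hkx' : S.disp k⁻¹ x ≤ b := by rw [hS.disp_inv]; exact hkx
  have hky' : S.disp k⁻¹ y ≤ b := by rw [hS.disp_inv]; exact hky
  obtain ⟨p1, hp1⟩ : ∃ p1, p1 = k⁻¹ • p := ⟨_, rfl⟩
  obtain ⟨p2, hp2⟩ : ∃ p2, p2 = g⁻¹ • p1 := ⟨_, rfl⟩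
  obtain ⟨p3, hp3⟩ : ∃ p3, p3 = k • p2 := ⟨_, rfl⟩
  obtain ⟨p4, hp4⟩ : ∃ p4, p4 = g • p3 := ⟨_, rfl⟩
  have F0 : 2 * b + e + 14 * D < 2 * S.d x p := by omega
  have m1 := (hS.pos_move k⁻¹ (p := p) hkx').1
  have n1 := (hS.pos_move' k⁻¹ (p := p) hky').1
  rw [← hp1] at m1 n1
  have T1 := h.tube_move hS k⁻¹ hkx' hky' hp (by omega) (by omega)
  rw [← hp1] at T1
  have m2 := (hS.pos_move g⁻¹ (p := p1) hgx').1
  have n2 := (hS.pos_move' g⁻¹ (p := p1) hgy').1
  rw [← hp2] at m2 n2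
  have F1 : 8 * b + e + 14 * D < 2 * S.d x p1 := by clear hfy n1 n2 T1 m2 hp; omega
  have F1' : 8 * b + e + 14 * D < 2 * S.d p1 y := by clear hfx m1 m2 T1 n2 hp; omega
  have T2 := h.tube_move hS g⁻¹ hgx' hgy' T1 (by clear T1 hp; omega) (by clear T1 hp; omega)
  rw [← hp2] at T2
  have F2 : 6 * b + e + 14 * D < 2 * S.d x p2 := by clear T1 T2 hp; omega
  have F2' : 6 * b + e + 14 * D < 2 * S.d p2 y := by clear T1 T2 hp; omega
  clear hfx hfy m1 n1
  have m3 := (hS.pos_move k (p := p2) hkx).1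
  have n3 := (hS.pos_move' k (p := p2) hky).1
  rw [← hp3] at m3 n3
  have T3 := h.tube_move hS k hkx hky T2 (by clear T1 T2 hp; omega) (by clear T1 T2 hp; omega)
  rw [← hp3] at T3
  have F3 : 4 * b + e + 14 * D < 2 * S.d x p3 := by clear T1 T2 T3 hp; omega
  have F3' : 4 * b + e + 14 * D < 2 * S.d p3 y := by clear T1 T2 T3 hp; omega
  have m4 := (hS.pos_move g (p := p3) hgx).1
  have n4 := (hS.pos_move' g (p := p3) hgy).1
  rw [← hp4] at m4 n4
  have T4 := h.tube_move hS g hgx hgy T3 (by clear T1 T2 T3 hp; omega) (by clear T1 T2 T3 hp; omega)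
  rw [← hp4] at T4
  have F4 : 2 * b + e + 14 * D < 2 * S.d x p4 := by clear T1 T2 T3 T4 hp; omega
  clear m2 n2 m3 n3 m4 n4 F1' F2' F3'
  -- shifts
  have s0 : S.d (k • x) p = S.d x p1 := by
    rw [hp1, ← hS k⁻¹ (k • x) p, inv_smul_smul]
  have s1 : S.d (g • x) p1 = S.d x p2 := by
    rw [hp2, ← hS g⁻¹ (g • x) p1, inv_smul_smul]
  have s3 : S.d (k • x) p3 = S.d x p2 := by rw [hp3, hS]
  have s4 : S.d (g • x) p4 = S.d x p3 := by rw [hp4, hS]
  have W0 : S.d x p + S.d p y ≤ S.d x y + (e + 12 * D) := by clear T1 T2 T3 T4; omega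
  have W1 : S.d x p1 + S.d p1 y ≤ S.d x y + (e + 12 * D) := by clear hp T2 T3 T4; omega
  have W3 : S.d x p3 + S.d p3 y ≤ S.d x y + (e + 12 * D) := by clear hp T2 T1 T4; omega
  have W4 : S.d x p4 + S.d p4 y ≤ S.d x y + (e + 12 * D) := by clear hp T2 T3 T1; omega
  clear T1 T2 T3 T4 hp
  have k1 := h.shift_const k hkx W0 W3 (by omega) (by omega)
  have k2 := h.shift_const k hkx W3 W0 (by omega) (by omega)
  have k3 := h.shift_const g hgx W1 W4 (by omega) (by omega)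
  have k4 := h.shift_const g hgx W4 W1 (by omega) (by omega)
  have fin := h.tube_dist' W0 W4
  have hw : (g * k * g⁻¹ * k⁻¹) • p = p4 := by
    rw [hp4, hp3, hp2, hp1]; simp [mul_smul]
  unfold disp
  rw [hw]
  rw [s0, s3] at k1 k2
  rw [s1, s4] at k3 k4
  clear W0 W1 W3 W4 F0 F1 F2 F3 F4 hgx hgy hkx hky hgx' hgy' hkx' hky' s0 s1 s3 s4
  generalize S.d x p = a0 at *
  generalize S.d x p1 = a1 at *
  generalize S.d x p2 = a2 at *
  generalize S.d x p3 = a3 at *
  generalize S.d x p4 = a4 at *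
  generalize S.d p p4 = z at *
  have u1 : a4 - a0 ≤ 2 * D := by omega
  have u2 : a0 - a4 ≤ 2 * D := by omega
  rcases le_total a0 a4 with hc | hc
  · have : a0 - a4 = 0 := by omega
    omega
  · have : a4 - a0 = 0 := by omega
    omega

end GM
end IE
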