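import Mathlib

/-!
# Cyclicity from a length function

A commutative group with a length function behaving like the absolute value of a homomorphism to
`ℝ`, and bounded below by `ε > 0` on nontrivial elements, is cyclic.

Proof: if the group is not trivial let `m = inf {ν a | a ≠ 1} ≥ ε`. Choose `a ≠ 1` with
`ν a < m + ε`. If `b ≠ 1` has `ν b < ν a`, then one of `a b, a b⁻¹` has length
`|ν a - ν b| = ν a - ν b < ε` (as `ν b ≥ m`), so it is `1` and `a = b^{±1}`, so `ν a = ν b`,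
contradiction. So `ν a` is minimal. For any `g` let `k = ⌊ν g / ν a⌋`; one of `g a^k`, `g a^{-k}` has
length `|ν g - k ν a| < ν a`, hence is `1`.
-/

namespace IE

theorem exists_gen_of_length {A : Type*} [CommGroup A] (ν : A → ℝ) (ε : ℝ) (hε : 0 < ε)
    (hpow : ∀ (a : A) (k : ℤ), ν (a ^ k) = |(k : ℝ)| * ν a)
    (hpar : ∀ a b : A, (ν (a * b) = ν a + ν b ∧ ν (a * b⁻¹) = |ν a - ν b|) ∨
      (ν (a * b) = |ν a - ν b| ∧ ν (a * b⁻¹) = ν a + ν b))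
    (hlow : ∀ a : A, a ≠ 1 → ε ≤ ν a) :
    ∃ a : A, ∀ g : A, ∃ k : ℤ, g = a ^ k := by
  sorry

/-- Version for a subgroup whose elements commute. -/
theorem exists_gen_of_length' {G : Type*} [Group G] (C : Subgroup G)
    (hcomm : ∀ a ∈ C, ∀ b ∈ C, a * b = b * a) (ν : G → ℝ) (ε : ℝ) (hε : 0 < ε)
    (hpow : ∀ a ∈ C, ∀ (k : ℤ), ν (a ^ k) = |(k : ℝ)| * ν a)
    (hpar : ∀ a ∈ C, ∀ b ∈ C, (ν (a * b) = ν a + ν b ∧ ν (a * b⁻¹) = |ν a - ν b|) ∨
      (ν (a * b) = |ν a - ν b| ∧ ν (a * b⁻¹) = ν a + ν b))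
    (hlow : ∀ a ∈ C, a ≠ 1 → ε ≤ ν a) :
    ∃ a ∈ C, ∀ g ∈ C, ∃ k : ℤ, g = a ^ k := by
  sorry

end IE
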