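import Pool.Agent.W_MP_3ab0ed_h44.Iterate

/-!
MP_3ab0ed_al.  From the one-step theorem for a fixed odd prime `p` to the torsion-freeness of the
homology of the relatively free groups of the variety `[x^p, y^p] = 1`.
-/

namespace Burn

open W3ab0ed.Rel W3ab0ed.Laws

theorem torsionFree_of_relBasis {p : ℕ} [Fact p.Prime] (hodd : p ≠ 2) {κ : Type}
    (hB : ∃ (I : Type) (a : I → FreeGroup κ), RelBasis (powN p (FreeGroup κ)) a p)
    (n : ℕ) (hn : 1 ≤ n) (m : ℕ)
    (z : groupHomology (Rep.trivial ℤ (RelFree (lawP p) κ) ℤ) n) (hm : m ≠ 0)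
    (hz : m • z = 0) : z = 0 := by
  have key : ∀ (V : Subgroup (FreeGroup κ)) (_ : V.Normal),
      V = ⁅powN p (FreeGroup κ), powN p (FreeGroup κ)⁆ →
      ∀ z : groupHomology (Rep.trivial ℤ (FreeGroup κ ⧸ V) ℤ) n, m • z = 0 → z = 0 := by
    rintro V hV rfl z hz
    obtain ⟨I, a, H⟩ := hB
    obtain ⟨n, rfl⟩ : ∃ n', n = n' + 1 := ⟨n - 1, by omega⟩
    exact (H.good hodd).torsionFree W3ab0ed.TF.tf n m hm z hz
  exact key _ _ (verbal_lawP p _) z hz

variable {p : ℕ} {Cls : ∀ (G V : Type) [Group G] [MulAction G V], IMet V → Prop}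

/-- **Iteration**, for the explicit variety. -/
theorem torsionFree_of_oneStep [hp : Fact p.Prime] (hodd : p ≠ 2) (hiso : IsoInv Cls) {κ : Type}
    (hinit : InitOut Cls κ)
    (hstep : ∀ (G V : Type) [Group G] [MulAction G V] (M : IMet V), Cls G V M →
      StepOut p Cls G V M)
    (n : ℕ) (hn : 1 ≤ n) (m : ℕ)
    (z : groupHomology (Rep.trivial ℤ (RelFree (lawP p) κ) ℤ) n) (hm : m ≠ 0)
    (hz : m • z = 0) : z = 0 := by
  refine torsionFree_of_relBasis hodd ?_ n hn m z hm hz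
  obtain ⟨V, _, M, x0, len, hc, hl⟩ := hinit
  refine exists_relBasis (ItP p Cls len) (ItP.zero hiso hc hl)
    (fun n N hN h => ItP.succ hiso hstep hN h) ?_
  intro f
  refine ⟨len f + 1, fun N h => ?_⟩
  obtain ⟨_, _, _, _, _, _, _, h3⟩ := h
  exact h3 (len f) f rfl (Nat.lt_two_pow_self).le

end Burn
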