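import Pool.Agent.W_MP_3ab0ed_al.ClassC
import Pool.Agent.W_MP_3ab0ed_al.Comm

/-!
# The base of the induction: the free group acting on itself

The word metric `d(x,y) = |x⁻¹y|` (Mathlib: `FreeGroup.norm`, needs `DecidableEq`; use
`Classical`). Four point condition with constant `0`: the Gromov product `(x|y)` at `1` (doubled:
`|x|+|y|-|x⁻¹y|`) is twice the length of the longest common initial segment of the reduced words of `x` and
`y`, and the common initial segments satisfy the ultrametric inequality; by left invariance this gives the four
point condition for all quadruples.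

`c1` (with `T = 1`): for `g ≠ 1`, `|x⁻¹ g^j x| ≥ j` (conjugate to a cyclically reduced element, or: use
`Hyp.growth'` with `D = 0`: in a tree an isometry `g` without fixed points and without inverted edges has
`d(z,g²z) = 2 d(z,gz)` at points `z` of minimal displacement, and `d(z,gz) ≥ 1` ...; `GM.Inv.nu_le`).

`c2`: if `u, v ≠ 1` move `x, y` by at most `κ`, and `d(x,y) > A ≥ 10κ+10`, take `p` the midpoint of an interval
`x,y`: `Hyp.comm_disp` with `D = 0`, `e = 0`, `b = κ` gives that the commutator fixes `p`, so it is trivial.
Free groups are torsion free (`FreeGroup` torsion-freeness in Mathlib: `FreeGroup.isMulTorsionFree` or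
similar).
-/

namespace IE

open Classical in
/-- The word metric of a free group. -/
noncomputable def freeGM (ι : Type*) : GM (FreeGroup ι) where
  d x y := (x⁻¹ * y).norm
  d_self := by sorry
  eq_of_d := by sorry
  d_comm := by sorry
  tri := by sorry
  interp := by sorry

theorem freeGM_inv (ι : Type*) : (freeGM ι).Inv (FreeGroup ι) := by
  sorry

theorem freeGM_hyp (ι : Type*) : (freeGM ι).Hyp 0 := by
  sorry

theorem free_translation (ι : Type*) (g x : FreeGroup ι) (hg : g ≠ 1) (j : ℕ) :
    j ≤ (freeGM ι).disp (g ^ j) x := by
  sorry

theorem free_classC (ι : Type*) (n κ T A : ℕ) (hn : 1 ≤ n) (hT : 1 ≤ T) (hA : 10 * κ + 10 ≤ A) :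
    ClassC (freeGM ι) (FreeGroup ι) n κ T A := by
  sorry

end IE
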