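import Pool.Agent.W_MP_3ab0ed_al.Thin

/-!
# The metric of a connected graph, and the electric metric

`elec S Y`: the graph metric on `X` of the graph in which `x ≠ y` are joined if `S.d x y = 1` or if both lie
in a common set `Y c`.
-/

namespace IE

open Pointwise

/-- The graph metric of a connected graph (Mathlib: `SimpleGraph.dist`,
`Connected.exists_walk_length_eq_dist`). -/
noncomputable def GM.ofGraph {X : Type*} (G : SimpleGraph X) (hG : G.Connected) : GM X where
  d := G.dist
  d_self := fun x => SimpleGraph.dist_self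
  eq_of_d := by sorry
  d_comm := fun x y => SimpleGraph.dist_comm
  tri := fun x y z => hG.dist_triangle
  interp := by sorry

/-- The electric graph. -/
def elecGraph {X P : Type*} (S : GM X) (Y : P → Set X) : SimpleGraph X where
  Adj x y := x ≠ y ∧ (S.d x y = 1 ∨ ∃ c, x ∈ Y c ∧ y ∈ Y c)
  symm := ⟨by
    rintro x y ⟨h1, h2⟩
    refine ⟨h1.symm, ?_⟩
    rcases h2 with h2 | ⟨c, h2, h3⟩
    · exact Or.inl (by rw [S.d_comm]; exact h2)
    · exact Or.inr ⟨c, h3, h2⟩⟩
  loopless := ⟨by rintro x ⟨h1, -⟩; exact h1 rfl⟩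

theorem elecGraph_connected {X P : Type*} [Nonempty X] (S : GM X) (Y : P → Set X) :
    (elecGraph S Y).Connected := by
  sorry

/-- The electric metric. -/
noncomputable def elec {X P : Type*} [Nonempty X] (S : GM X) (Y : P → Set X) : GM X :=
  GM.ofGraph (elecGraph S Y) (elecGraph_connected S Y)

section
variable {X P : Type*} [Nonempty X] (S : GM X) (Y : P → Set X)

theorem elec_le (x y : X) : (elec S Y).d x y ≤ S.d x y := by
  sorry

theorem elec_le_one {x y : X} {c : P} (hx : x ∈ Y c) (hy : y ∈ Y c) : (elec S Y).d x y ≤ 1 := by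
  sorry

theorem elec_step {x y : X} (h : (elec S Y).d x y ≤ 1) :
    S.d x y ≤ 1 ∨ ∃ c, x ∈ Y c ∧ y ∈ Y c := by
  sorry

/-- Invariance of the electric metric. -/
theorem elec_inv {Γ : Type*} [Group Γ] [MulAction Γ X] [MulAction Γ P] (hS : S.Inv Γ)
    (hY : ∀ (g : Γ) (c : P) (x : X), x ∈ Y c → g • x ∈ Y (g • c)) : (elec S Y).Inv Γ := by
  sorry

end

end IE
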