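import Pool.Agent.W_MP_3ab0ed_al.Slim4

/-!
# Guessing geodesics (Bowditch criterion) for two metrics on the same set

`S` is the original metric (four point constant `2`, so triangles of `S`-intervals are `4`-slim), `E ≤ S`
is a coarser metric such that `S`-intervals between points with `E`-distance `≤ 1` have `E`-diameter `≤ 5`
around the endpoint. Then `S`-intervals are `E`-close to `E`-geodesics and `E` is hyperbolic.

Proof of `guess_close`.
(a) For every sequence `γ 0, …, γ m` with consecutive `E`-distances `≤ 1`, `m ≤ 2^k`, every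
`p ∈ I_S(γ 0, γ m)` is within `4k+5` of some `γ i` (`E`-distance): bisection, using `Hyp.slim` for `S`
(constant `4`) and `S`-distance `≥ E`-distance; the case `k = 0` is hypothesis `h1`.
(b) For fixed `m` the set of numbers `R = min_i E.d p (γ i)`, over all `E`-geodesics `γ` of length `≤ m`
and `p ∈ I_S(γ 0,γ m')`, is bounded by (a); let `R` be its maximum and suppose `R ≥ 51`, attained at
`γ` (length `m'`), `p`. Let `γ i` be closest to `p`, `s = 2R+9`, `a = γ (i-s)` (or `γ 0` if `i<s`),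
`b = γ (i+s)` (or `γ m'`). By slimness of the quadrilateral (`Hyp.quad`, constant `8`) `p` is `8`-close
to `I_S(γ 0,a)`, `I_S(a,b)` or `I_S(b,γ m')`. In the first case, if `i ≥ s`: the close point is `R`-close
to some `γ j`, `j ≤ i-s`, so `E.d (γ i) (γ j) ≤ R+8+R` contradicts `i-j ≥ s`; if `i<s` then `a=γ 0` and
`R ≤ 8`. Third case similarly. Second case: by (a) `R ≤ 8+4k+5` with `2^{k-1} < 2s = 4R+18`
(choose `k` minimal with `2^k ≥ 2s`); for `R ≥ 51` this is false (`k ≤ 8` gives `R ≤ 45`; for `k ≥ 9`,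
`R > (2^{k-1}-18)/4 ≥ 4k+13`).

`guess_back`: along an `S`-geodesic path `z_0,…,z_l` from `γ 0` to `γ m` every `z_j` is `50`-close to some
`γ (i j)`; take `i 0 = 0`, `i l = m`; consecutive indices differ by at most `101`, so some `z_j` has
`|i j - i| ≤ 51`. Then `E.d (γ i) (z_j) ≤ 51+50`.

`guess_slim`: `101 + 4 + 50`.
-/

namespace IE
namespace GM

variable {X : Type*}

theorem guess_close (S E : GM X) (hS : S.Hyp 2) (hle : ∀ x y, E.d x y ≤ S.d x y)
    (h1 : ∀ x y p, E.d x y ≤ 1 → S.Btw x p y → E.d x p ≤ 5)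
    (γ : ℕ → X) (m : ℕ) (hγ : ∀ i j, i ≤ j → j ≤ m → E.d (γ i) (γ j) = j - i)
    (p : X) (hp : S.Btw (γ 0) p (γ m)) : ∃ i ≤ m, E.d p (γ i) ≤ 50 := by
  sorry

/-- Interval version. -/
theorem guess_close' (S E : GM X) (hS : S.Hyp 2) (hle : ∀ x y, E.d x y ≤ S.d x y)
    (h1 : ∀ x y p, E.d x y ≤ 1 → S.Btw x p y → E.d x p ≤ 5)
    (x y p : X) (hp : S.Btw x p y) : ∃ q, E.Btw x q y ∧ E.d p q ≤ 50 := by
  sorry

theorem guess_back (S E : GM X) (hS : S.Hyp 2) (hle : ∀ x y, E.d x y ≤ S.d x y)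
    (h1 : ∀ x y p, E.d x y ≤ 1 → S.Btw x p y → E.d x p ≤ 5)
    (x y q : X) (hq : E.Btw x q y) : ∃ p, S.Btw x p y ∧ E.d q p ≤ 101 := by
  sorry

theorem guess_slim (S E : GM X) (hS : S.Hyp 2) (hle : ∀ x y, E.d x y ≤ S.d x y)
    (h1 : ∀ x y p, E.d x y ≤ 1 → S.Btw x p y → E.d x p ≤ 5)
    (x y z q : X) (hq : E.Btw x q y) : ∃ r, (E.Btw x r z ∨ E.Btw y r z) ∧ E.d q r ≤ 155 := by
  sorry

theorem guess_hyp (S E : GM X) (hS : S.Hyp 2) (hle : ∀ x y, E.d x y ≤ S.d x y)
    (h1 : ∀ x y p, E.d x y ≤ 1 → S.Btw x p y → E.d x p ≤ 5) : E.Hyp 622 := by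
  sorry

end GM
end IE
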