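import Pool.Agent.W_MP_3ab0ed_al.Proj

/-!
# Isometries: descending lemma, growth lemma, quasiconvexity of `Yset`
-/

namespace IE
namespace GM

variable {X : Type*} {S : GM X} {D : ℕ} {Γ : Type*} [Group Γ] [MulAction Γ X]

theorem Inv.pow_dist (hS : S.Inv Γ) (g : Γ) (x : X) (i j : ℕ) :
    S.d (g ^ i • x) (g ^ (i + j) • x) = S.d x (g ^ j • x) := by
  rw [pow_add, mul_smul, hS]

theorem Inv.disp_pow_le (hS : S.Inv Γ) (g : Γ) (x : X) (j : ℕ) :
    S.disp (g ^ j) x ≤ j * S.disp g x := by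
  unfold disp
  induction j with
  | zero => simp [S.d_self]
  | succ j ih =>
    have h1 := S.tri x (g ^ j • x) (g ^ (j + 1) • x)
    have h2 := hS.pow_dist g x j 1
    rw [pow_one] at h2
    calc S.d x (g ^ (j + 1) • x) ≤ j * S.d x (g • x) + S.d x (g • x) := by omega
      _ = (j + 1) * S.d x (g • x) := by ring

theorem Inv.disp_lip (hS : S.Inv Γ) (g : Γ) (x y : X) :
    S.disp g x ≤ S.disp g y + 2 * S.d x y := by
  unfold disp
  have h1 := S.tri x y (g • x)
  have h2 := S.tri y (g • y) (g • x)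
  have h3 := hS g y x
  have h4 := S.d_comm x y
  omega

/-- Growth lemma. -/
theorem Hyp.growth (h : S.Hyp D) (hS : S.Inv Γ) (g : Γ) (x : X) (e : ℕ) (he : 1 ≤ e)
    (h2 : S.disp g x + D + e ≤ S.disp (g ^ 2) x) (j : ℕ) :
    S.disp (g ^ j) x + e ≤ S.disp (g ^ (j + 1)) x := by
  unfold disp at *
  induction j with
  | zero =>
    simp only [pow_zero, one_smul, S.d_self, zero_add, pow_one]
    have t := S.tri x (g • x) (g ^ 2 • x)
    have t2 := hS.pow_dist g x 1 1
    simp only [pow_one] at t2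
    norm_num at t2
    omega
  | succ j ih =>
    have f := h x (g ^ 2 • x) (g • x) (g ^ (j + 2) • x)
    have e1 := hS.pow_dist g x 1 (j + 1)
    have e2 := hS.pow_dist g x 2 j
    have e3 := hS.pow_dist g x 1 1
    simp only [pow_one] at e1 e3
    norm_num at e3
    rw [show 1 + (j + 1) = j + 2 by ring] at e1
    rw [show 2 + j = j + 2 by ring] at e2
    have c := S.d_comm (g ^ 2 • x) (g • x)
    rw [show j + 1 + 1 = j + 2 by ring]
    rcases f with f | f <;> omega

theorem Hyp.growth' (h : S.Hyp D) (hS : S.Inv Γ) (g : Γ) (x : X) (e : ℕ) (he : 1 ≤ e)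
    (h2 : S.disp g x + D + e ≤ S.disp (g ^ 2) x) (j : ℕ) : j * e ≤ S.disp (g ^ j) x := by
  induction j with
  | zero => simp
  | succ j ih =>
    have := h.growth hS g x e he h2 j
    calc (j + 1) * e = j * e + e := by ring
      _ ≤ _ := by omega

/-- Descending lemma. -/
theorem Hyp.descend [Nonempty X] (h : S.Hyp D) (hS : S.Inv Γ) (g : Γ) (x : X) :
    ∃ z w : X, S.Btw x z (g • x) ∧ S.Btw z w (g • x) ∧ S.Btw x w (g • x) ∧
      S.d w (g • x) = S.d x z ∧
      S.d w (g • z) ≤ 2 * D ∧ S.disp g z ≤ S.tl g + (3 * D + 1) ∧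
      2 * S.d x z + S.tl g ≤ S.disp g x ∧
      (S.d x z = 0 ∨ 2 * S.d x z + S.tl g + D ≤ S.disp g x) := by
  obtain ⟨m, hm⟩ := S.exists_tl g
  unfold disp at *
  set L := S.d x (g • x) with hL
  set τ := S.tl g with hτ
  have hτL : τ ≤ L := S.tl_le g x
  -- the second displacement is at most `L + τ + D`
  have ha2 : S.d x (g ^ 2 • x) ≤ L + τ + D := by
    have f := h x (g ^ 2 • x) (g • x) (g • m)
    have e1 : S.d (g ^ 2 • x) (g • m) = S.d (g • x) m := by
      rw [pow_two, mul_smul, hS]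
    have e2 : S.d (g ^ 2 • x) (g • x) = L := by
      rw [pow_two, mul_smul, hS, S.d_comm]
    have e3 : S.d (g • x) (g • m) = S.d x m := hS g x m
    have t1 := S.tri (g • x) (g • m) m
    have t2 := S.tri x m (g • m)
    have c1 := S.d_comm (g • m) m
    rcases f with f | f <;> omega
  obtain ⟨z, hz, hz'⟩ := S.exists_btw x (g • x) ((L - τ - D) / 2) (by omega)
  set t := (L - τ - D) / 2 with ht
  have hzr : S.d z (g • x) = L - t := by unfold Btw at hz; omega
  obtain ⟨w, hw, hw'⟩ := S.exists_btw z (g • x) (L - t - t) (by omega)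
  have hwr : S.d w (g • x) = t := by unfold Btw at hw; omega
  have hxw := S.btw_trans' hz hw
  have hxw' : S.d x w = L - t := by
    have := hxw.1; unfold Btw at this; omega
  -- `d(w, g z) ≤ 2D`
  have hdist : S.d w (g • z) ≤ 2 * D := by
    have f1 := h x (g • x) w (g ^ 2 • x)
    have e2 : S.d (g • x) (g ^ 2 • x) = L := by
      rw [pow_two, mul_smul, hS]
    have c1 := S.d_comm (g • x) w
    have f2 := h (g • x) (g ^ 2 • x) w (g • z)
    have e3 : S.d (g • x) (g • z) = t := by rw [hS, hz']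
    have e4 : S.d (g ^ 2 • x) (g • z) = L - t := by
      rw [pow_two, mul_smul, hS, S.d_comm, hzr]
    have c2 := S.d_comm (g ^ 2 • x) w
    have t3 := S.tri w (g • x) (g ^ 2 • x)
    rcases f1 with f1 | f1 <;> rcases f2 with f2 | f2 <;> omega
  have hdz : S.d z (g • z) ≤ L - t - t + 2 * D := by
    have := S.tri z w (g • z); omega
  exact ⟨z, w, hz, hw, hxw.1, by omega, hdist, by omega, by omega, by omega⟩

theorem Hyp.descend_mem [Nonempty X] (h : S.Hyp D) (hS : S.Inv Γ) (g : Γ) (x : X) :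
    ∃ z ∈ S.Yset D g, 2 * S.d x z + S.tl g ≤ S.disp g x ∧
      (S.d x z = 0 ∨ 2 * S.d x z + S.tl g + D ≤ S.disp g x) := by
  obtain ⟨z, w, -, -, -, -, -, h1, h2⟩ := h.descend hS g x
  exact ⟨z, h1, h2⟩

theorem disp_one (x : X) : S.disp (1 : Γ) x = 0 := by simp [disp, S.d_self]

/-- Displacement along an interval. -/
theorem Hyp.disp_convex (h : S.Hyp D) (hS : S.Inv Γ) (g : Γ) {x y p : X} (hp : S.Btw x p y) :
    S.disp g p ≤ max (S.disp g x) (S.disp g y) + 2 * D :=
  h.convex hp (hS.btw g hp) (hS g x p) (hS g p y)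

/-- `Yset` is `2D`-quasiconvex. -/
theorem Hyp.Yset_qc [Nonempty X] (h : S.Hyp D) (hS : S.Inv Γ) (g : Γ) :
    S.Qc (2 * D) (S.Yset D g) := by
  constructor
  · obtain ⟨m, hm⟩ := S.exists_tl g
    exact ⟨m, by unfold Yset; simp only [Set.mem_ofPred_eq]; omega⟩
  · intro x hx y hy p hp
    have h1 := h.disp_convex hS g hp
    obtain ⟨z, hz, hz', hz2⟩ := h.descend_mem hS g p
    refine ⟨z, hz, ?_⟩
    unfold Yset at hx hy
    simp only [Set.mem_ofPred_eq] at hx hy
    have : max (S.disp g x) (S.disp g y) ≤ S.tl g + (3 * D + 1) := max_le hx hy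
    omega

/-- Lower bound for the square at a minimal point. -/
theorem Hyp.sq_lower [Nonempty X] (h : S.Hyp D) (hS : S.Inv Γ) (g : Γ)
    (hg : 3 * D + 2 ≤ S.tl g) (z : X) (hz : S.disp g z = S.tl g) :
    S.disp g z + D + (S.tl g - (3 * D + 1)) ≤ S.disp (g ^ 2) z := by
  unfold disp at *
  set m := S.tl g with hm
  set a2 := S.d z (g ^ 2 • z) with ha2
  by_contra hcon
  have hlt : a2 < m + D + (m - (3 * D + 1)) := by omega
  -- the common part has length `t ≥ D+1`
  set t := min ((2 * m - a2) / 2) (m / 2) with ht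
  have htD : D + 1 ≤ t := by
    rw [ht]; apply le_min <;> omega
  have ht1 : 2 * t + a2 ≤ 2 * m := by
    have := min_le_left ((2 * m - a2) / 2) (m / 2)
    omega
  have ht2 : 2 * t ≤ m := by
    have := min_le_right ((2 * m - a2) / 2) (m / 2)
    omega
  obtain ⟨v, hv, hv'⟩ := S.exists_btw z (g • z) t (by omega)
  have hvr : S.d v (g • z) = m - t := by unfold Btw at hv; omega
  obtain ⟨w, hw, hw'⟩ := S.exists_btw v (g • z) (m - t - t) (by omega)
  have hwr : S.d w (g • z) = t := by unfold Btw at hw; omega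
  have hzw := (S.btw_trans' hv hw).1
  have hzw' : S.d z w = m - t := by unfold Btw at hzw; omega
  have hdist : S.d w (g • v) ≤ 2 * D := by
    have f1 := h z (g • z) w (g ^ 2 • z)
    have e2 : S.d (g • z) (g ^ 2 • z) = m := by
      rw [pow_two, mul_smul, hS, hz]
    have c1 := S.d_comm (g • z) w
    have f2 := h (g • z) (g ^ 2 • z) w (g • v)
    have e3 : S.d (g • z) (g • v) = t := by rw [hS, hv']
    have e4 : S.d (g ^ 2 • z) (g • v) = m - t := by
      rw [pow_two, mul_smul, hS, S.d_comm, hvr]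
    have c2 := S.d_comm (g ^ 2 • z) w
    rcases f1 with f1 | f1 <;> rcases f2 with f2 | f2 <;> omega
  have hmin := S.tl_le g v
  unfold disp at hmin
  have := S.tri v w (g • v)
  omega

theorem Hyp.growth_tl [Nonempty X] (h : S.Hyp D) (hS : S.Inv Γ) (g : Γ)
    (hg : 3 * D + 2 ≤ S.tl g) : ∃ z : X, S.disp g z = S.tl g ∧
    ∀ j : ℕ, j * (S.tl g - (3 * D + 1)) ≤ S.disp (g ^ j) z := by
  obtain ⟨z, hz⟩ := S.exists_tl g
  exact ⟨z, hz, h.growth' hS g z _ (by omega) (h.sq_lower hS g hg z hz)⟩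

end GM
end IE
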