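import Pool.Agent.W_MP_3ab0ed_al.Thin

/-!
# Nearest point projections to quasiconvex sets

Constants: `c1 = 2D+2q+1`, `c2 = c1 + D`, `c3 = 2 c1 + D`.
-/

namespace IE
namespace GM

variable {X : Type*} {S : GM X} {D q : ℕ} {Y : Set X}

/-- Nearest point projection: `d(x,y)+d(y,y') ≤ d(x,y') + c1`. -/
theorem Hyp.proj (h : S.Hyp D) (hY : S.Qc q Y) {x y y' : X} (hy : y ∈ S.near Y x) (hy' : y' ∈ Y) :
    S.d x y + S.d y y' ≤ S.d x y' + (2 * D + 2 * q + 1) := by
  obtain ⟨p, hp0, hpn, hd, hb⟩ := S.exists_path y y'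
  have hmin := hy.2 y' hy'
  by_cases hall : ∀ t, t ≤ S.d y y' → S.d y (p t) + S.d (p t) x ≤ S.d y x + D
  · have := hall _ le_rfl
    rw [hpn] at this
    have c := S.d_comm y x
    have c' := S.d_comm y' x
    omega
  · push Not at hall
    classical
    have hex : ∃ t, t ≤ S.d y y' ∧ S.d y x + D < S.d y (p t) + S.d (p t) x := hall
    obtain ⟨ht1, ht2⟩ := Nat.find_spec hex
    set t := Nat.find hex with htdef
    have ht0 : t ≠ 0 := by
      intro h0
      rw [h0, hp0, S.d_self] at ht2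
      omega
    have hpre : ¬ (t - 1 ≤ S.d y y' ∧ S.d y x + D < S.d y (p (t-1)) + S.d (p (t-1)) x) :=
      Nat.find_min hex (by omega)
    have hpre' : S.d y (p (t-1)) + S.d (p (t-1)) x ≤ S.d y x + D := by
      by_contra hcon
      exact hpre ⟨by omega, by omega⟩
    have hb1 := hb (t-1) (by omega)
    have hb2 := hb t ht1
    obtain ⟨y1, hy1, hy1'⟩ := hY.2 y hy.1 y' hy' _ hb1
    obtain ⟨y2, hy2, hy2'⟩ := hY.2 y hy.1 y' hy' _ hb2
    have m1 := hy.2 y1 hy1
    have m2 := hy.2 y2 hy2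
    have t1 := S.tri x (p (t-1)) y1
    have t2 := S.tri x (p t) y2
    have e1 := hd 0 (t-1) (Nat.zero_le _) (by omega)
    have e2 := hd 0 t (Nat.zero_le _) ht1
    rw [hp0] at e1 e2
    have k1 := S.d_comm x (p (t-1))
    have k2 := S.d_comm x (p t)
    have k3 := S.d_comm x y
    have k4 := S.d_comm x y'
    have k5 := S.d_comm y' (p t)
    rcases h.tri_prod hb2 x with h3 | h3
    · omega
    · unfold Btw at hb2
      omega

/-- Two nearest points of the same point. -/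
theorem Hyp.near_near (h : S.Hyp D) (hY : S.Qc q Y) {x y y' : X} (hy : y ∈ S.near Y x)
    (hy' : y' ∈ S.near Y x) : S.d y y' ≤ 2 * D + 2 * q + 1 := by
  have h1 := h.proj hY hy hy'.1
  have h2 := hy'.2 y hy.1
  omega

/-- The projection dichotomy. -/
theorem Hyp.proj_dich (h : S.Hyp D) (hY : S.Qc q Y) {x y x' y' : X} (hy : y ∈ S.near Y x)
    (hy' : y' ∈ S.near Y x') :
    2 * S.d y y' ≤ 2 * (2 * D + 2 * q + 1) + D ∨
      S.d x y + S.d y y' + S.d y' x' ≤ S.d x x' + (2 * (2 * D + 2 * q + 1) + D) := by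
  have h1 := h.proj hY hy hy'.1
  have h2 := h.proj hY hy' hy.1
  have h3 := h x y' y x'
  have c1 := S.d_comm y x'
  have c2 := S.d_comm y' x'
  have c3 := S.d_comm y' y
  rcases h3 with h3 | h3 <;> omega

/-- If the projections are far apart then the interval passes close to them. -/
theorem Hyp.proj_pass (h : S.Hyp D) (hY : S.Qc q Y) {x y x' y' : X} (hy : y ∈ S.near Y x)
    (hy' : y' ∈ S.near Y x') (hfar : 2 * D + 2 * q + 1 + D < S.d y y') :
    S.d x y + S.d y y' + S.d y' x' ≤ S.d x x' + (2 * (2 * D + 2 * q + 1) + D) := by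
  rcases h.proj_dich hY hy hy' with h1 | h1
  · omega
  · exact h1

theorem Hyp.proj_le (h : S.Hyp D) (hY : S.Qc q Y) {x y x' y' : X} (hy : y ∈ S.near Y x)
    (hy' : y' ∈ S.near Y x') : S.d y y' ≤ S.d x x' + (2 * (2 * D + 2 * q + 1) + D) := by
  rcases h.proj_dich hY hy hy' with h1 | h1 <;> omega

theorem Hyp.rho_bdd (h : S.Hyp D) (hY : S.Qc q Y) (x x' : X) :
    BddAbove {m | ∃ y ∈ S.near Y x, ∃ y' ∈ S.near Y x', m = S.d y y'} := by
  refine ⟨S.d x x' + (2 * (2 * D + 2 * q + 1) + D), ?_⟩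
  rintro m ⟨y, hy, y', hy', rfl⟩
  exact h.proj_le hY hy hy'

theorem Hyp.le_rho (h : S.Hyp D) (hY : S.Qc q Y) {x y x' y' : X} (hy : y ∈ S.near Y x)
    (hy' : y' ∈ S.near Y x') : S.d y y' ≤ S.rho Y x x' :=
  le_csSup (h.rho_bdd hY x x') ⟨y, hy, y', hy', rfl⟩

theorem Qc.rho_attained (hY : S.Qc q Y) (h : S.Hyp D) (x x' : X) :
    ∃ y ∈ S.near Y x, ∃ y' ∈ S.near Y x', S.rho Y x x' = S.d y y' := by
  have hne : {m | ∃ y ∈ S.near Y x, ∃ y' ∈ S.near Y x', m = S.d y y'}.Nonempty := by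
    obtain ⟨y, hy⟩ := S.near_nonempty hY.1 x
    obtain ⟨y', hy'⟩ := S.near_nonempty hY.1 x'
    exact ⟨_, y, hy, y', hy', rfl⟩
  exact Nat.sSup_mem hne (h.rho_bdd hY x x')

theorem Hyp.rho_le_iff (h : S.Hyp D) (hY : S.Qc q Y) (x x' : X) (m : ℕ) :
    S.rho Y x x' ≤ m ↔ ∀ y ∈ S.near Y x, ∀ y' ∈ S.near Y x', S.d y y' ≤ m := by
  constructor
  · intro hm y hy y' hy'
    exact (h.le_rho hY hy hy').trans hm
  · intro hm
    obtain ⟨y, hy, y', hy', he⟩ := hY.rho_attained h x x'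
    rw [he]; exact hm y hy y' hy'

theorem rho_comm (Y : Set X) (x x' : X) : S.rho Y x x' = S.rho Y x' x := by
  unfold rho
  congr 1
  ext m
  constructor
  · rintro ⟨y, hy, y', hy', rfl⟩; exact ⟨y', hy', y, hy, S.d_comm _ _⟩
  · rintro ⟨y, hy, y', hy', rfl⟩; exact ⟨y', hy', y, hy, S.d_comm _ _⟩

theorem Hyp.rho_tri (h : S.Hyp D) (hY : S.Qc q Y) (x y z : X) :
    S.rho Y x z ≤ S.rho Y x y + S.rho Y y z := by
  obtain ⟨a, ha, c, hc, he⟩ := hY.rho_attained h x z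
  obtain ⟨b, hb⟩ := S.near_nonempty hY.1 y
  have h1 := h.le_rho hY ha hb
  have h2 := h.le_rho hY hb hc
  have h3 := S.tri a b c
  omega

theorem Hyp.rho_self (h : S.Hyp D) (hY : S.Qc q Y) (x : X) :
    S.rho Y x x ≤ 2 * D + 2 * q + 1 := by
  rw [h.rho_le_iff hY]
  intro y hy y' hy'
  exact h.near_near hY hy hy'

theorem Hyp.rho_le_d (h : S.Hyp D) (hY : S.Qc q Y) (x x' : X) :
    S.rho Y x x' ≤ S.d x x' + (2 * (2 * D + 2 * q + 1) + D) := by
  rw [h.rho_le_iff hY]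
  intro y hy y' hy'
  exact h.proj_le hY hy hy'

/-- For points of `Y` the projection distance is the distance. -/
theorem near_of_mem {y : X} (hy : y ∈ Y) : S.near Y y = {y} := by
  ext z
  constructor
  · rintro ⟨hz, hz'⟩
    have := hz' y hy
    rw [S.d_self] at this
    have := S.eq_of_d y z (by omega)
    simp [this]
  · rintro hz
    rw [Set.mem_singleton_iff] at hz
    subst hz
    exact ⟨hy, fun y' hy' => by rw [S.d_self]; omega⟩

theorem rho_of_mem {y y' : X} (hy : y ∈ Y) (hy' : y' ∈ Y) : S.rho Y y y' = S.d y y' := by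
  unfold rho
  rw [near_of_mem hy, near_of_mem hy']
  have : {m | ∃ z ∈ ({y} : Set X), ∃ z' ∈ ({y'} : Set X), m = S.d z z'} = {S.d y y'} := by
    ext m; simp
  rw [this, csSup_singleton]

/-- Points of `Y` near the interval give a lower bound for the projection distance. -/
theorem Hyp.rho_lower (h : S.Hyp D) (hY : S.Qc q Y) {x y z z' : X} {e : ℕ}
    (hz : z ∈ Y) (hz' : z' ∈ Y) (h1 : S.d x z + S.d z y ≤ S.d x y + e)
    (h2 : S.d x z' + S.d z' y ≤ S.d x y + e) :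
    S.d z z' ≤ S.rho Y x y + (e + 2 * (2 * D + 2 * q + 1) + D) := by
  obtain ⟨a, ha⟩ := S.near_nonempty hY.1 x
  obtain ⟨b, hb⟩ := S.near_nonempty hY.1 y
  have e1 := h.proj hY ha hz
  have e2 := h.proj hY hb hz
  have e3 := h.proj hY ha hz'
  have e4 := h.proj hY hb hz'
  have e5 := h.le_rho hY ha hb
  have t1 := S.tri x a y
  have t2 := S.tri a b y
  have c1 := S.d_comm z y
  have c2 := S.d_comm z' y
  have c3 := S.d_comm b z
  have c4 := S.d_comm b z'
  have c5 := S.d_comm y b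
  have f1 : S.d a z + S.d z b ≤ S.d a b + (e + 2 * (2 * D + 2 * q + 1)) := by omega
  have f2 : S.d a z' + S.d z' b ≤ S.d a b + (e + 2 * (2 * D + 2 * q + 1)) := by omega
  have := h.tube_dist' f1 f2
  have k1 : S.d a z ≤ S.d a b + (e + 2 * (2 * D + 2 * q + 1)) := by omega
  have g := h a b z z'
  have k2 := S.tri a z' b
  have k3 := S.d_comm b z'
  have k4 := S.d_comm b z
  have k5 := S.tri z a z'
  have k6 := S.tri z b z'
  have k7 := S.d_comm z a
  rcases g with g | g <;> omega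

variable {Γ : Type*} [Group Γ] [MulAction Γ X]

open Pointwise in
theorem Inv.near_smul (hS : S.Inv Γ) (g : Γ) (Y : Set X) (x : X) :
    S.near (g • Y) (g • x) = g • S.near Y x := by
  ext z
  constructor
  · rintro ⟨⟨y, hy, rfl⟩, hz⟩
    refine ⟨y, ⟨hy, ?_⟩, rfl⟩
    intro y' hy'
    have := hz (g • y') ⟨y', hy', rfl⟩
    simp only [hS g] at this
    exact this
  · rintro ⟨y, ⟨hy, hy2⟩, rfl⟩
    refine ⟨⟨y, hy, rfl⟩, ?_⟩
    rintro _ ⟨y', hy', rfl⟩
    simp only [hS g]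
    exact hy2 y' hy'

open Pointwise in
theorem Inv.rho_smul (hS : S.Inv Γ) (g : Γ) (Y : Set X) (x x' : X) :
    S.rho (g • Y) (g • x) (g • x') = S.rho Y x x' := by
  unfold rho
  congr 1
  ext m
  constructor
  · rintro ⟨y, hy, y', hy', rfl⟩
    rw [hS.near_smul] at hy hy'
    obtain ⟨a, ha, rfl⟩ := hy
    obtain ⟨b, hb, rfl⟩ := hy'
    exact ⟨a, ha, b, hb, hS g a b⟩
  · rintro ⟨y, hy, y', hy', rfl⟩
    refine ⟨g • y, ?_, g • y', ?_, (hS g y y').symm⟩
    · rw [hS.near_smul]; exact ⟨y, hy, rfl⟩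
    · rw [hS.near_smul]; exact ⟨y', hy', rfl⟩

end GM
end IE
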