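import Pool.Agent.W_MP_3ab0ed_al.Stable
import Pool.Agent.W_MP_3ab0ed_al.Comm

/-!
# Quasi-axes of isometries with large translation length

Throughout `z` is a point with `disp g z ≤ [g] + E` and `[g]` is large compared to `E` and `D`.

Proofs.

`qa1`: put `a₁ = d(z,gz) ≤ [g]+E`, `a₂ = d(z,g²z) ≥ 2([g]-(3D+1))` (`growth_all`),
`β = 2E+7D+2 ≥ 2a₁-a₂+D`. Induction on `j ≥ 1`. `j=1` trivial, `j=2` is `2a₁-a₂ ≤ β`. For `j ≥ 3` use the
four point condition for the pairs `(z,g²z), (gz,g^j z)`: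
either `a₂ + d(gz,g^jz) ≤ d(z,g^jz) + a₁ + D`, which is the claim, or
`a₂ + d(gz,g^jz) ≤ a₁ + d(g²z,g^jz) + D`, and with the induction hypothesis (translated by `g`)
`a₁ + d(g²z,g^jz) ≤ d(gz,g^jz)+β` we get `a₂ ≤ β + D`, impossible since `[g]` is large.

`qa2`: for `0<i<j` use the four point condition for the pairs `(z,g^{i+1}z), (g^iz,g^jz)` together with
`d(z,g^iz)+a₁ ≤ d(z,g^{i+1}z)+β` (this is `qa1` for `g⁻¹`, translated by `g^{i+1}`) and
`a₁+d(g^{i+1}z,g^jz) ≤ d(g^iz,g^jz)+β`.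

`qa3`: write `o' = g^{-m}z', o₁' = g^m z', o = g^{-m} z, o₁ = g^m z`, `a = d(z,z') = d(o,o') = d(o₁,o₁')`.
By `qa2`, `d(o',z')+d(z',o₁') ≤ d(o',o₁')+(β+D)`, and `d(z',o₁'), d(o',z') ≥ m([g]-3D-1)` are huge compared
to `a`. The four point condition for `(o',o₁'),(z',o₁)` gives `d(o',z')+d(z',o₁) ≤ d(o',o₁)+(β+2D)`
(the other alternative says `2 d(z',o₁') ≤ 2a+β+2D`). Then the same with `o'` replaced by `o`.
-/

namespace IE
namespace GM

variable {X : Type*} {S : GM X} {D : ℕ} {Γ : Type*} [Group Γ] [MulAction Γ X]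

theorem Hyp.qa1 [Nonempty X] (h : S.Hyp D) (hS : S.Inv Γ) (g : Γ) (E : ℕ)
    (hg : 2 * E + 8 * D + 3 ≤ S.tl g) {z : X} (hz : S.disp g z ≤ S.tl g + E) (j : ℕ) (hj : 1 ≤ j) :
    S.d z (g • z) + S.d (g • z) (g ^ j • z) ≤ S.d z (g ^ j • z) + (2 * E + 7 * D + 2) := by
  sorry

theorem Hyp.qa2 [Nonempty X] (h : S.Hyp D) (hS : S.Inv Γ) (g : Γ) (E : ℕ)
    (hg : 2 * E + 8 * D + 3 ≤ S.tl g) {z : X} (hz : S.disp g z ≤ S.tl g + E) (i j : ℕ)
    (hij : i ≤ j) :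
    S.d z (g ^ i • z) + S.d (g ^ i • z) (g ^ j • z) ≤ S.d z (g ^ j • z) + (2 * E + 8 * D + 2) := by
  sorry

theorem Hyp.qa3 [Nonempty X] (h : S.Hyp D) (hS : S.Inv Γ) (g : Γ) (E : ℕ)
    (hg : 2 * E + 8 * D + 3 ≤ S.tl g) {z z' : X} (hz : S.disp g z ≤ S.tl g + E)
    (hz' : S.disp g z' ≤ S.tl g + E) :
    ∃ m0 : ℕ, ∀ m, m0 ≤ m → S.d ((g ^ m)⁻¹ • z) z' + S.d z' (g ^ m • z) ≤
      S.d ((g ^ m)⁻¹ • z) (g ^ m • z) + (2 * E + 10 * D + 2) := by
  sorry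

/-- Invariance of `Yset` under commuting elements. -/
theorem Inv.disp_comm (hS : S.Inv Γ) (g u : Γ) (hc : g * u = u * g) (z : X) :
    S.disp g (u • z) = S.disp g z := by
  sorry

/-- If `u` commutes with `g` (`[g]` and `[u]` large) then `disp u z` is `[u]` up to a constant on the
quasi-axis of `g`. Proof: let `z*` be a point with `disp u z* = [u]`, and `y` a nearest point of `Yset D g`
to `z*`; `u y` is a nearest point to `u z*`; as `d(y,uy) ≥ [u] > 7D+1` the projection estimate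
(`Hyp.proj_pass`, `q = 2D`) gives `disp u y ≤ [u] + (13 D + 2)`. For large `m`
let `o = g^{-m} z`, `o₁ = g^m z`; all points `z', u z'` with `disp g z' ≤ [g]+E` lie in the tube of `(o,o₁)`
with constant `C = 2E+10D+2` (`qa3`), so (`tube_dist'`) distances of such points are differences of
distances to `o` up to `C + D`, and `d(o,uz') - d(o,z')` is constant up to `D`
(`shift_const` for `u`, base point `o`). -/
theorem Hyp.disp_commuting [Nonempty X] (h : S.Hyp D) (hS : S.Inv Γ) (g u : Γ) (E : ℕ)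
    (hc : g * u = u * g) (hE : 3 * D + 1 ≤ E)
    (hg : 2 * E + 8 * D + 3 ≤ S.tl g) (hu : 2 * E + 20 * D + 20 ≤ S.tl u)
    {z : X} (hz : S.disp g z ≤ S.tl g + E) :
    S.disp u z ≤ S.tl u + (2 * E + 26 * D + 6) := by
  sorry

/-- Rotation lemma. If `u` commutes with `g`, then for two points `z₁, z₂` of the quasi-axis of `g` one of
`u z₂`, `u⁻¹ z₂` is at distance about `|d(z₁,z₂) - [u]|` from `z₁`. (Coordinates `d(o,·)` as above:
`u^{±1}` changes the coordinate of `z₂` by `± s` with `s` constant up to `D` and `|s| = [u]` up to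
`2E+26D+6 + C + D`; the shifts of `u` at `u⁻¹z₂` and at `z₂` have the same sign since
`d(u⁻¹z₂,uz₂) ≥ 2([u]-3D-1)`.) -/
theorem Hyp.rotate [Nonempty X] (h : S.Hyp D) (hS : S.Inv Γ) (g u : Γ) (E : ℕ)
    (hc : g * u = u * g) (hE : 3 * D + 1 ≤ E)
    (hg : 2 * E + 8 * D + 3 ≤ S.tl g) (hu : 10 * E + 100 * D + 100 ≤ S.tl u)
    {z1 z2 : X} (h1 : S.disp g z1 ≤ S.tl g + E) (h2 : S.disp g z2 ≤ S.tl g + E) :
    ∃ ε : ℤ, (ε = 1 ∨ ε = -1) ∧
      (S.d z1 (u ^ ε • z2) : ℤ) ≤ |(S.d z1 z2 : ℤ) - S.tl u| + (20 * E + 200 * D + 100) := by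
  sorry

end GM
end IE
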