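import Pool.Agent.W_MP_3ab0ed_al.Thin

/-!
# Quotient of an integer valued metric by a normal group of isometries

`X / K` carries the metric `min_k d(x, k y)`, and the quotient group `Γ ⧸ K` acts by isometries.
-/

namespace IE

variable {Γ X : Type*} [Group Γ] [MulAction Γ X]

/-- The orbit space. -/
abbrev OrbQ (K : Subgroup Γ) (X : Type*) [MulAction Γ X] : Type _ := MulAction.orbitRel.Quotient K X

/-- The projection. -/
def oq (K : Subgroup Γ) (x : X) : OrbQ K X := Quotient.mk'' x

theorem oq_eq_iff (K : Subgroup Γ) (x y : X) : oq K x = oq K y ↔ ∃ k ∈ K, x = k • y := by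
  sorry

theorem oq_surj (K : Subgroup Γ) (a : OrbQ K X) : ∃ x : X, oq K x = a := by
  sorry

/-- The action of `Γ ⧸ K` on `X / K`. -/
noncomputable instance quotAction (K : Subgroup Γ) [K.Normal] : MulAction (Γ ⧸ K) (OrbQ K X) where
  smul a b := Quotient.map₂ (sa := QuotientGroup.leftRel K) (sb := MulAction.orbitRel K X)
    (sc := MulAction.orbitRel K X) (fun (g : Γ) (x : X) => g • x) (by sorry) a b
  one_smul := by sorry
  mul_smul := by sorry

theorem mk_smul_oq (K : Subgroup Γ) [K.Normal] (g : Γ) (x : X) :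
    (QuotientGroup.mk g : Γ ⧸ K) • oq K x = oq K (g • x) := by
  sorry

/-- The quotient distance of two points given by representatives. -/
noncomputable def qd (E : GM X) (K : Subgroup Γ) (x y : X) : ℕ :=
  sInf {m | ∃ k ∈ K, m = E.d x (k • y)}

/-- The quotient metric. -/
noncomputable def GM.quot (E : GM X) (hE : E.Inv Γ) (K : Subgroup Γ) : GM (OrbQ K X) where
  d a b := Quotient.liftOn₂' a b (qd E K) (by sorry)
  d_self := by sorry
  eq_of_d := by sorry
  d_comm := by sorry
  tri := by sorry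
  interp := by sorry

section
variable (E : GM X) (hE : E.Inv Γ) (K : Subgroup Γ)

theorem quot_le (x y : X) : (E.quot hE K).d (oq K x) (oq K y) ≤ E.d x y := by
  sorry

theorem quot_le' (x y : X) (k : Γ) (hk : k ∈ K) :
    (E.quot hE K).d (oq K x) (oq K y) ≤ E.d x (k • y) := by
  sorry

theorem quot_exists (x y : X) : ∃ k ∈ K, (E.quot hE K).d (oq K x) (oq K y) = E.d x (k • y) := by
  sorry

theorem quot_inv [K.Normal] : (E.quot hE K).Inv (Γ ⧸ K) := by
  sorry

end

/-! ### Rescaling -/

/-- The metric `⌈d / N⌉`. -/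
def GM.rescale {X : Type*} (S : GM X) (N : ℕ) (hN : 0 < N) : GM X where
  d x y := (S.d x y + (N - 1)) / N
  d_self := by sorry
  eq_of_d := by sorry
  d_comm := by sorry
  tri := by sorry
  interp := by sorry

theorem rescale_hyp {X : Type*} (S : GM X) (N : ℕ) (hN : 0 < N) (D : ℕ) (hS : S.Hyp D)
    (hD : D ≤ N) : (S.rescale N hN).Hyp 2 := by
  sorry

theorem rescale_inv {X : Type*} (S : GM X) (N : ℕ) (hN : 0 < N) {Γ : Type*} [Group Γ]
    [MulAction Γ X] (hS : S.Inv Γ) : (S.rescale N hN).Inv Γ := by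
  sorry

theorem le_rescale {X : Type*} (S : GM X) (N : ℕ) (hN : 0 < N) (x y : X) :
    S.d x y ≤ N * (S.rescale N hN).d x y := by
  sorry

theorem rescale_le {X : Type*} (S : GM X) (N : ℕ) (hN : 0 < N) (x y : X) :
    N * (S.rescale N hN).d x y ≤ S.d x y + (N - 1) := by
  sorry

end IE
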