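import Pool.Agent.W_MP_3ab0ed_al.Thin

/-!
# Slim triangles imply the four point condition

Proof. Let `x y z w` be given. Along a geodesic path from `x` to `y` each point is `σ`-close to
`I(x,z) ∪ I(y,z)`; `x` is close to the first and `y` to the second, so there is a point `p` of the path
that is `σ`-close to `I(x,z)` and `(σ+1)`-close to `I(y,z)`. Hence
`d(x,p)+d(p,z) ≤ d(x,z)+2σ` and `d(y,p)+d(p,z) ≤ d(y,z)+2σ+2`. Now `p` is `σ`-close to
`I(x,w)` or to `I(y,w)`. In the first case `d(x,p)+d(p,w) ≤ d(x,w)+2σ` and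
`d(x,y)+d(z,w) ≤ (d(x,p)+d(p,w)) + (d(y,p)+d(p,z)) ≤ d(x,w)+d(y,z)+4σ+2`; in the second case
`d(x,y)+d(z,w) ≤ d(x,z)+d(y,w)+4σ+2`.
-/

namespace IE
namespace GM

variable {X : Type*}

theorem hyp_of_slim (S : GM X) (σ : ℕ)
    (h : ∀ x y z q, S.Btw x q y → ∃ r, (S.Btw x r z ∨ S.Btw y r z) ∧ S.d q r ≤ σ) :
    S.Hyp (4 * σ + 2) := by
  sorry

end GM
end IE
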