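import Pool.Agent.W_MP_3ab0ed_al.Isom

/-!
# Stable length

`nu g = lim d(x, g^j x)/j` (real). Use `Subadditive` (Mathlib: `Subadditive.lim`,
`Subadditive.tendsto_lim`, `Subadditive.lim_le_div`) for the sequence `j ↦ d(x₀, g^j x₀)`, where `x₀`
is an arbitrary point; the limit does not depend on the point, because
`|d(x,g^j x) - d(y,g^j y)| ≤ 2 d(x,y)`.
-/

namespace IE
namespace GM

open Filter Topology

variable {X : Type*} (S : GM X) {D : ℕ} {Γ : Type*} [Group Γ] [MulAction Γ X]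

/-- Stable length. -/
noncomputable def nu [Nonempty X] (g : Γ) : ℝ :=
  limUnder atTop fun j : ℕ => (S.disp (g ^ j) (Classical.arbitrary X) : ℝ) / j

variable {S}

theorem Inv.tendsto_nu [Nonempty X] (hS : S.Inv Γ) (g : Γ) (x : X) :
    Tendsto (fun j : ℕ => (S.disp (g ^ j) x : ℝ) / j) atTop (𝓝 (S.nu g)) := by
  sorry

theorem Inv.nu_nonneg [Nonempty X] (hS : S.Inv Γ) (g : Γ) : 0 ≤ S.nu g := by
  sorry

/-- `j ν(g) ≤ d(x, g^j x)`. -/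
theorem Inv.nu_le [Nonempty X] (hS : S.Inv Γ) (g : Γ) (x : X) (j : ℕ) :
    (j : ℝ) * S.nu g ≤ S.disp (g ^ j) x := by
  sorry

theorem Inv.nu_le_tl [Nonempty X] (hS : S.Inv Γ) (g : Γ) : S.nu g ≤ S.tl g := by
  sorry

/-- Lower bounds pass to the limit. -/
theorem Inv.le_nu [Nonempty X] (hS : S.Inv Γ) (g : Γ) (x : X) (c C : ℝ)
    (h : ∀ j : ℕ, (j : ℝ) * c ≤ S.disp (g ^ j) x + C) : c ≤ S.nu g := by
  sorry

/-- Upper bounds pass to the limit. -/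
theorem Inv.nu_le_of [Nonempty X] (hS : S.Inv Γ) (g : Γ) (x : X) (c C : ℝ)
    (h : ∀ j : ℕ, (S.disp (g ^ j) x : ℝ) ≤ (j : ℝ) * c + C) : S.nu g ≤ c := by
  sorry

theorem Inv.nu_pow [Nonempty X] (hS : S.Inv Γ) (g : Γ) (k : ℕ) : S.nu (g ^ k) = k * S.nu g := by
  sorry

theorem Inv.nu_inv [Nonempty X] (hS : S.Inv Γ) (g : Γ) : S.nu g⁻¹ = S.nu g := by
  sorry

theorem Inv.nu_zpow [Nonempty X] (hS : S.Inv Γ) (g : Γ) (k : ℤ) :
    S.nu (g ^ k) = |(k : ℝ)| * S.nu g := by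
  sorry

theorem Inv.nu_conj [Nonempty X] (hS : S.Inv Γ) (g h : Γ) : S.nu (h * g * h⁻¹) = S.nu g := by
  sorry

/-- `ν(gh)+ν(gh⁻¹) ≤ 2 max(ν g, ν h)` for commuting elements: apply `Hyp` to the points
`x, g^j h^j x, g^j x, h^j x` (note `d(g^j x, h^j x) = d(x, (g h⁻¹)^j x)` up to `inv`), divide by `j`. -/
theorem Hyp.nu_par [Nonempty X] (h : S.Hyp D) (hS : S.Inv Γ) (g k : Γ) (hgk : g * k = k * g) :
    S.nu (g * k) + S.nu (g * k⁻¹) ≤ 2 * max (S.nu g) (S.nu k) := by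
  sorry

/-- Hence one of `ν(gh), ν(gh⁻¹)` is `ν g + ν h` and the other is `|ν g - ν h|`: apply `nu_par` also
to the pair `gh, gh⁻¹`, whose product and quotient are `g²`, `h²`. -/
theorem Hyp.nu_par' [Nonempty X] (h : S.Hyp D) (hS : S.Inv Γ) (g k : Γ) (hgk : g * k = k * g) :
    (S.nu (g * k) = S.nu g + S.nu k ∧ S.nu (g * k⁻¹) = |S.nu g - S.nu k|) ∨
    (S.nu (g * k) = |S.nu g - S.nu k| ∧ S.nu (g * k⁻¹) = S.nu g + S.nu k) := by
  sorry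

/-- `[g] - (3D+1) ≤ ν(g)` (from `growth_tl`, and `ν ≥ 0`). -/
theorem Hyp.tl_le_nu [Nonempty X] (h : S.Hyp D) (hS : S.Inv Γ) (g : Γ) :
    (S.tl g : ℝ) - (3 * D + 1) ≤ S.nu g := by
  sorry

/-- `j ([g] - (3D+1)) ≤ d(x, g^j x)` for all points `x`. -/
theorem Hyp.growth_all [Nonempty X] (h : S.Hyp D) (hS : S.Inv Γ) (g : Γ) (x : X) (j : ℕ) :
    j * (S.tl g - (3 * D + 1)) ≤ S.disp (g ^ j) x := by
  sorry

end GM
end IE
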