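import Pool.Agent.W_MP_3ab0ed_al.Basic

/-!
# Consequences of the four point condition
-/

namespace IE
namespace GM

variable {X : Type*} {S : GM X} {D : ℕ}

/-- Near-geodesic points are close to the interval point with the same position. -/
theorem Hyp.near_btw (h : S.Hyp D) {x y p q : X} {e : ℕ}
    (hp : S.d x p + S.d p y ≤ S.d x y + e) (hq : S.Btw x q y)
    (hpos : S.d x q = min (S.d x p) (S.d x y)) : S.d p q ≤ e + D := by
  unfold Btw at hq
  have h1 := h x y p q
  have h2 := S.d_comm y p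
  have h3 := S.d_comm y q
  have h4 := S.tri p y q
  rcases le_total (S.d x p) (S.d x y) with hc | hc
  · rw [min_eq_left hc] at hpos
    rcases h1 with h1 | h1 <;> omega
  · rw [min_eq_right hc] at hpos
    have : S.d q y = 0 := by omega
    have := S.d_comm q y
    omega

/-- Two near-geodesic points: their distance is the difference of the positions, up to `e + D`. -/
theorem Hyp.tube_dist (h : S.Hyp D) {x y p q : X} {e : ℕ}
    (hp : S.d x p + S.d p y ≤ S.d x y + e) (hq : S.d x q + S.d q y ≤ S.d x y + e)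
    (hpq : S.d x p ≤ S.d x q) : S.d p q + S.d x p ≤ S.d x q + e + D := by
  have h1 := h x y p q
  have h2 := S.d_comm y p
  have h3 := S.d_comm y q
  rcases h1 with h1 | h1 <;> omega

theorem Hyp.tube_dist' (h : S.Hyp D) {x y p q : X} {e : ℕ}
    (hp : S.d x p + S.d p y ≤ S.d x y + e) (hq : S.d x q + S.d q y ≤ S.d x y + e) :
    S.d p q ≤ (S.d x q - S.d x p) + (S.d x p - S.d x q) + e + D := by
  rcases le_total (S.d x p) (S.d x q) with hc | hc
  · have := h.tube_dist hp hq hc; omega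
  · have := h.tube_dist hq hp hc
    have := S.d_comm p q; omega

/-- Exists interval point close to a near-geodesic point. -/
theorem Hyp.exists_near_btw (h : S.Hyp D) {x y p : X} {e : ℕ}
    (hp : S.d x p + S.d p y ≤ S.d x y + e) :
    ∃ q, S.Btw x q y ∧ S.d p q ≤ e + D ∧ S.d x q = min (S.d x p) (S.d x y) := by
  obtain ⟨q, hq, hq'⟩ := S.exists_btw x y (min (S.d x p) (S.d x y)) (min_le_right _ _)
  exact ⟨q, hq, h.near_btw hp hq hq', hq'⟩

/-- A point close to an interval point is near-geodesic. -/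
theorem tube_of_near {x y p q : X} {e : ℕ} (hq : S.Btw x q y) (hpq : S.d p q ≤ e) :
    S.d x p + S.d p y ≤ S.d x y + 2 * e := by
  unfold Btw at hq
  have h1 := S.tri x q p
  have h2 := S.tri p q y
  have h3 := S.d_comm p q
  omega

theorem tube_of_near' {x y p q : X} {e f : ℕ} (hq : S.d x q + S.d q y ≤ S.d x y + f)
    (hpq : S.d p q ≤ e) : S.d x p + S.d p y ≤ S.d x y + f + 2 * e := by
  have h1 := S.tri x q p
  have h2 := S.tri p q y
  have h3 := S.d_comm p q
  omega

/-- Thin triangles, product form. -/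
theorem Hyp.tri_prod (h : S.Hyp D) {x y p : X} (hp : S.Btw x p y) (z : X) :
    S.d x p + S.d p z ≤ S.d x z + D ∨ S.d y p + S.d p z ≤ S.d y z + D := by
  unfold Btw at hp
  have h1 := h x y p z
  have h2 := S.d_comm y p
  rcases h1 with h1 | h1 <;> omega

/-- Thin triangles. -/
theorem Hyp.slim (h : S.Hyp D) {x y p : X} (hp : S.Btw x p y) (z : X) :
    (∃ q, S.Btw x q z ∧ S.d p q ≤ 2 * D) ∨ (∃ q, S.Btw y q z ∧ S.d p q ≤ 2 * D) := by
  rcases h.tri_prod hp z with h1 | h1
  · obtain ⟨q, hq, hq', -⟩ := h.exists_near_btw h1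
    exact Or.inl ⟨q, hq, by omega⟩
  · obtain ⟨q, hq, hq', -⟩ := h.exists_near_btw h1
    exact Or.inr ⟨q, hq, by omega⟩

/-- Thin quadrilaterals: `p ∈ I(x,y)` is `4D`-close to `I(x,z) ∪ I(z,w) ∪ I(w,y)`. -/
theorem Hyp.quad (h : S.Hyp D) {x y p : X} (hp : S.Btw x p y) (z w : X) :
    (∃ q, S.Btw x q z ∧ S.d p q ≤ 4 * D) ∨ (∃ q, S.Btw z q w ∧ S.d p q ≤ 4 * D) ∨
      (∃ q, S.Btw w q y ∧ S.d p q ≤ 4 * D) := by
  rcases h.slim hp z with ⟨q, hq, hq'⟩ | ⟨q, hq, hq'⟩
  · exact Or.inl ⟨q, hq, by omega⟩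
  · rcases h.slim hq w with ⟨q', hr, hr'⟩ | ⟨q', hr, hr'⟩
    · refine Or.inr (Or.inr ⟨q', S.btw_symm hr, ?_⟩)
      have := S.tri p q q'; omega
    · refine Or.inr (Or.inl ⟨q', hr, ?_⟩)
      have := S.tri p q q'; omega

/-- The displacement function is quasiconvex (for a pair of isometric intervals). -/
theorem Hyp.convex (h : S.Hyp D) {x y p x' y' p' : X} (hp : S.Btw x p y) (hp' : S.Btw x' p' y')
    (h1 : S.d x' p' = S.d x p) (h2 : S.d p' y' = S.d p y) :
    S.d p p' ≤ max (S.d x x') (S.d y y') + 2 * D := by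
  unfold Btw at hp hp'
  have a1 := h x' y' p' x
  have a2 := h x' y' p' y
  have a3 := h x y p p'
  have c1 := S.d_comm x x'
  have c2 := S.d_comm y' p'
  have c3 := S.d_comm y' x
  have c4 := S.d_comm p' x
  have c5 := S.d_comm y' y
  have c6 := S.d_comm x' y
  have c7 := S.d_comm p' y
  have c8 := S.d_comm y p
  have t1 := S.tri x y y'
  have t2 := S.tri y x x'
  have c9 := S.d_comm x y
  have m1 := le_max_left (S.d x x') (S.d y y')
  have m2 := le_max_right (S.d x x') (S.d y y')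
  rcases a1 with a1 | a1 <;> rcases a2 with a2 | a2 <;> rcases a3 with a3 | a3 <;> omega

end GM
end IE
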