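import Mathlib

/-!
# Abstract projection systems with large rotations (windmill argument), definitions

`ProjSys Γ X P`: a group `Γ` acting on a set of points `X` and a set of cones `P`; every cone `c` has a
set `Y c` of points and a projection distance `rho c`, and an element `t c` fixing `c` whose powers
rotate by at least `ell c`. `wK` is the subgroup generated by all `t c`.

Stages of the windmill based at `x0`: a subgroup `KU` and a set `Q` of cones. `wset KU Q` is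
`KU x0 ∪ ⋃_{c ∈ Q} Y c`.
-/

namespace IE

structure ProjSys (Γ X P : Type*) [Group Γ] [MulAction Γ X] [MulAction Γ P] where
  Y : P → Set X
  rho : P → X → X → ℕ
  dist : P → X → ℕ
  ell : P → ℕ
  t : P → Γ
  Δ : ℕ
  Y_ne : ∀ c, (Y c).Nonempty
  Y_smul : ∀ (g : Γ) (c : P) (x : X), x ∈ Y c → g • x ∈ Y (g • c)
  rho_comm : ∀ c x y, rho c x y = rho c y x
  rho_tri : ∀ c x y z, rho c x z ≤ rho c x y + rho c y z
  rho_self : ∀ c x, rho c x x ≤ Δ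
  rho_smul : ∀ (g : Γ) (c : P) (x y : X), rho (g • c) (g • x) (g • y) = rho c x y
  rho_Y : ∀ c c', c ≠ c' → ∀ y ∈ Y c', ∀ y' ∈ Y c', rho c y y' ≤ Δ
  proj_pt : ∀ c x, ∃ y ∈ Y c, rho c x y ≤ Δ
  beh : ∀ c c', c ≠ c' → ∀ z, ∀ w ∈ Y c', ∀ w' ∈ Y c, rho c z w ≤ Δ ∨ rho c' z w' ≤ Δ
  dist_smul : ∀ (g : Γ) (c : P) (x : X), dist (g • c) (g • x) = dist c x
  dist_near : ∀ c x, ∃ y ∈ Y c, ∀ c', c' ≠ c → dist c x ≤ dist c' x → rho c' x y ≤ Δ
  t_smul : ∀ (g : Γ) (c : P), t (g • c) = g * t c * g⁻¹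
  t_fix : ∀ c, t c • c = c
  ell_smul : ∀ (g : Γ) (c : P), ell (g • c) = ell c
  spin : ∀ c (i : ℤ), i ≠ 0 → ∀ z, ell c ≤ rho c z ((t c) ^ i • z)
  big : ∀ c, 100 * Δ < ell c

namespace ProjSys

variable {Γ X P : Type*} [Group Γ] [MulAction Γ X] [MulAction Γ P] (S : ProjSys Γ X P)

/-- The group generated by all rotations. -/
def wK : Subgroup Γ := Subgroup.closure (Set.range S.t)

/-- The point set of a windmill. -/
def wset (x0 : X) (KU : Subgroup Γ) (Q : Set P) : Set X :=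
  {x | (∃ k ∈ KU, x = k • x0) ∨ ∃ c ∈ Q, x ∈ S.Y c}

/-- Invariants of the stage `r`. -/
structure Good (x0 : X) (r : ℕ) (KU : Subgroup Γ) (Q : Set P) : Prop where
  smul_Q : ∀ k ∈ KU, ∀ c ∈ Q, k • c ∈ Q
  mem : ∀ c ∈ Q, S.t c ∈ KU
  conv : ∀ c, c ∉ Q → ∀ z ∈ S.wset x0 KU Q, ∀ z' ∈ S.wset x0 KU Q, S.rho c z z' ≤ 12 * S.Δ
  disp : ∀ k ∈ KU, k ≠ 1 → ∃ c, S.ell c ≤ S.rho c x0 (k • x0) + 15 * S.Δ
  far : ∀ c, c ∉ Q → ∀ k ∈ KU, r ≤ S.dist c (k • x0)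

/-- The new cones at stage `r`. -/
def nset (x0 : X) (r : ℕ) (KU : Subgroup Γ) (Q : Set P) : Set P :=
  {c | c ∉ Q ∧ ((∃ z ∈ S.wset x0 KU Q, ∃ z' ∈ S.wset x0 KU Q, 2 * S.Δ < S.rho c z z') ∨
    ∃ k ∈ KU, S.dist c (k • x0) = r)}

/-- The next group. -/
def nextK (x0 : X) (r : ℕ) (KU : Subgroup Γ) (Q : Set P) : Subgroup Γ :=
  Subgroup.closure ((KU : Set Γ) ∪ S.t '' S.nset x0 r KU Q)

/-- The next set of cones. -/
def nextQ (x0 : X) (r : ℕ) (KU : Subgroup Γ) (Q : Set P) : Set P :=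
  {c | ∃ g ∈ S.nextK x0 r KU Q, ∃ b ∈ Q ∪ S.nset x0 r KU Q, c = g • b}

/-- Reduced products of rotations about cones of `N`, ending with an element of `KU`; the index
is the cone of the first rotation. -/
inductive RW (KU : Subgroup Γ) (N : Set P) : P → Γ → Prop
  | last (b : P) (i : ℤ) (k : Γ) : b ∈ N → i ≠ 0 → k ∈ KU → RW KU N b ((S.t b) ^ i * k)
  | cons (b b' : P) (i : ℤ) (g : Γ) : b ∈ N → i ≠ 0 → RW KU N b' g → b' ≠ b →
      RW KU N b ((S.t b) ^ i * g)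

/-- The stages of the windmill based at `x0`. -/
noncomputable def stg (x0 : X) : ℕ → Subgroup Γ × Set P
  | 0 => (⊥, ∅)
  | r + 1 => (S.nextK x0 r (stg x0 r).1 (stg x0 r).2, S.nextQ x0 r (stg x0 r).1 (stg x0 r).2)

end ProjSys
end IE
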