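import Pool.Agent.W_MP_3ab0ed_al.Wm0

/-!
# Windmill, part 1: adjacency and separation

Below `W = S.wset x0 KU Q`, `N = S.nset x0 r KU Q`, `hG : S.Good x0 r KU Q`.

`wset_smul`, `nset_smul`, `Y_smul_iff`: invariance (use `rho_smul`, `dist_smul` with `k⁻¹`).

`adj`: let `b' ∈ N`, `b ∉ Q`, `b ≠ b'`.
 (i) If `z, z' ∈ W` with `2Δ < ρ_{b'}(z,z')`: pick `y ∈ Y b`; by the triangle inequality
 `ρ_{b'}(z*,y) > Δ` for `z* = z` or `z'`; then `beh b b' (z*) u y` gives `ρ_b(z*,u) ≤ Δ` for all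
 `u ∈ Y b'`.
 (ii) If `dist b' (k x0) = r`: take `y ∈ Y b'` from `dist_near b' (k x0)`; as `dist b (k x0) ≥ r` (`far`)
 we get `ρ_b(k x0, y) ≤ Δ`, and `≤ 2Δ` for the other points of `Y b'` (`rho_Y`).

`adj'`: hence `ρ_b(w,u) ≤ 14Δ` for all `w ∈ W`, `u ∈ Y b'` (`conv`).

`far_side` (F1): for `RW b g` and `w, w' ∈ W`: `ell b ≤ ρ_b(w, g w') + 15Δ`. Induction.
 `g = t_b^i k`: `ρ_b(w, g w') ≥ ρ_b(k w', t_b^i k w') - ρ_b(w,k w') ≥ ell b - 12Δ`.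
 `g = t_b^i g'`, `RW b' g'`, `b' ≠ b`: induction gives `ρ_{b'}(w,g'w') ≥ ell b' - 15Δ`, for `y ∈ Y b`
 `ρ_{b'}(w,y) ≤ 14Δ`, so `ρ_{b'}(g'w',y) > Δ`, so (`beh`) `ρ_b(g'w',u) ≤ Δ` for `u ∈ Y b'`, and
 `ρ_b(w,g'w') ≤ 14Δ+Δ`; now apply `spin`.

`decomp`: every element of `nextK` lies in `KU` or is `RW b g` for some `b`: the set of such elements is
closed under left multiplication by `KU` (conjugate all rotations: `k t_b^i = t_{kb}^i k`, `RW` is preserved)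
and by powers `t_b^j`, `b ∈ N` (merge with the first rotation if it is about `b`).
-/

namespace IE
namespace ProjSys

variable {Γ X P : Type*} [Group Γ] [MulAction Γ X] [MulAction Γ P] (S : ProjSys Γ X P)

theorem ell_pow_fix (c : P) (i : ℤ) : (S.t c) ^ i • c = c := by
  sorry

theorem Y_smul_iff (g : Γ) (c : P) (x : X) : g • x ∈ S.Y (g • c) ↔ x ∈ S.Y c := by
  sorry

variable {S} {x0 : X} {r : ℕ} {KU : Subgroup Γ} {Q : Set P}

theorem Good.wset_smul (hG : S.Good x0 r KU Q) (k : Γ) (hk : k ∈ KU) (x : X)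
    (hx : x ∈ S.wset x0 KU Q) : k • x ∈ S.wset x0 KU Q := by
  sorry

theorem Good.nset_smul (hG : S.Good x0 r KU Q) (k : Γ) (hk : k ∈ KU) (c : P)
    (hc : c ∈ S.nset x0 r KU Q) : k • c ∈ S.nset x0 r KU Q := by
  sorry

theorem Good.adj (hG : S.Good x0 r KU Q) {b b' : P} (hb' : b' ∈ S.nset x0 r KU Q) (hb : b ∉ Q)
    (hne : b ≠ b') : ∃ z ∈ S.wset x0 KU Q, ∀ u ∈ S.Y b', S.rho b z u ≤ 2 * S.Δ := by
  sorry

theorem Good.adj' (hG : S.Good x0 r KU Q) {b b' : P} (hb' : b' ∈ S.nset x0 r KU Q) (hb : b ∉ Q)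
    (hne : b ≠ b') (w : X) (hw : w ∈ S.wset x0 KU Q) (u : X) (hu : u ∈ S.Y b') :
    S.rho b w u ≤ 14 * S.Δ := by
  sorry

theorem Good.far_side (hG : S.Good x0 r KU Q) {b : P} {g : Γ}
    (hg : S.RW KU (S.nset x0 r KU Q) b g) (w : X) (hw : w ∈ S.wset x0 KU Q)
    (w' : X) (hw' : w' ∈ S.wset x0 KU Q) : S.ell b ≤ S.rho b w (g • w') + 15 * S.Δ := by
  sorry

theorem Good.RW_smul (hG : S.Good x0 r KU Q) {b : P} {g : Γ}
    (hg : S.RW KU (S.nset x0 r KU Q) b g) (k : Γ) (hk : k ∈ KU) :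
    S.RW KU (S.nset x0 r KU Q) (k • b) (k * g) := by
  sorry

theorem Good.decomp (hG : S.Good x0 r KU Q) (g : Γ) (hg : g ∈ S.nextK x0 r KU Q) :
    g ∈ KU ∨ ∃ b, S.RW KU (S.nset x0 r KU Q) b g := by
  sorry

end ProjSys
end IE
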