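import Pool.Agent.W_MP_3ab0ed_al.Wm1

/-!
# Windmill, part 2: convexity of the next stage

`W = S.wset x0 KU Q`, `N = S.nset x0 r KU Q`, `Q' = S.nextQ`, `K' = S.nextK`.

`small`: if `c ∉ Q'` then `c ∉ Q`, `c ∉ N`, hence `ρ_c(w,w') ≤ 2Δ` for `w,w' ∈ W`.

`step_conv` (F3): let `c ∉ Q'`, `g ∈ KU` or `RW b' g` with
 (h1) `ρ_{b'}(s,w) ≤ 15Δ` for all `w ∈ W`; and (h2) `ρ_c(s,w) ≤ 5Δ` for all `w ∈ W`.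
Then `ρ_c(s, g w') ≤ 8Δ` for all `w' ∈ W`. Induction on `RW`, for all `s, c`.
 `g ∈ KU`: clear. Let `g = r g''`, `r = t_{b'}^i`, where `g'' ∈ KU` or `RW b'' g''`, `b'' ≠ b'`.
 Let `y ∈ Y c`, and `z* ∈ W` with `ρ_c(z*,u) ≤ 2Δ` for `u ∈ Y b'` (`adj`).
 Case 1 `ρ_{b'}(g w',y) > Δ`: `beh` gives `ρ_c(g w',u) ≤ Δ` (`u ∈ Y b'`), so
 `ρ_c(s,g w') ≤ 5Δ + 2Δ + Δ`.
 Case 2 `ρ_{b'}(g w',y) ≤ Δ`: by `far_side` `ρ_{b'}(w,gw') ≥ ell b' - 15Δ`, so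
 `ρ_{b'}(s,y) ≥ ell b' - 31Δ > Δ`, so `ρ_c(s,u) ≤ Δ` for all `u ∈ Y b'`. Put `s' = r⁻¹ s`,
 `c' = r⁻¹ c ∉ Q'`, `r⁻¹ b' = b'`. Then `ρ_{c'}(s',u) ≤ Δ` for `u ∈ Y b'`, hence
 `ρ_{c'}(s',w) ≤ Δ + 2Δ + 2Δ` for `w ∈ W` (h2). If `RW b'' g''`: `ρ_{b'}(s',w) ≥ ρ_{b'}(s',s) - ρ_{b'}(s,w)
 ≥ ell b' - 15Δ` (`spin`), for `y'' ∈ Y b''`: `ρ_{b'}(w,y'') ≤ 14Δ`, so `ρ_{b'}(s',y'') > Δ`, so
 `ρ_{b''}(s',u) ≤ Δ` for `u ∈ Y b'` and `ρ_{b''}(s',w) ≤ Δ+14Δ` (h1). Induction: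
 `ρ_c(s,g w') = ρ_{c'}(s',g'' w') ≤ 8Δ`.

`next_good`: `conv` for the next stage: every point of the new `wset` is `a z0`, `a ∈ K'`, with
`z0 ∈ W` or `z0 ∈ Y b`, `b ∈ N`; in the second case `ρ_{c}(z*,z0) ≤ 2Δ` for some `z* ∈ W` (for every
`c ∉ Q`, `c ≠ b`); so `ρ_c ≤ 2Δ+8Δ+2Δ`. `disp`: `decomp` and `far_side` with `w = w' = x0`. `far`:
`dist c (k x0) = dist (k⁻¹c) x0`, `k⁻¹ c ∉ Q' ⊇ Q ∪ N`.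
-/

namespace IE
namespace ProjSys

variable {Γ X P : Type*} [Group Γ] [MulAction Γ X] [MulAction Γ P] {S : ProjSys Γ X P}
variable {x0 : X} {r : ℕ} {KU : Subgroup Γ} {Q : Set P}

theorem Good.small (hG : S.Good x0 r KU Q) {c : P} (hc : c ∉ S.nextQ x0 r KU Q)
    (w : X) (hw : w ∈ S.wset x0 KU Q) (w' : X) (hw' : w' ∈ S.wset x0 KU Q) :
    S.rho c w w' ≤ 2 * S.Δ := by
  sorry

theorem Good.step_conv (hG : S.Good x0 r KU Q) {c : P} (hc : c ∉ S.nextQ x0 r KU Q) (g : Γ)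
    (s : X) (hg : g ∈ KU ∨ ∃ b, S.RW KU (S.nset x0 r KU Q) b g ∧
      ∀ w ∈ S.wset x0 KU Q, S.rho b s w ≤ 15 * S.Δ)
    (h2 : ∀ w ∈ S.wset x0 KU Q, S.rho c s w ≤ 5 * S.Δ)
    (w' : X) (hw' : w' ∈ S.wset x0 KU Q) : S.rho c s (g • w') ≤ 8 * S.Δ := by
  sorry

theorem Good.next (hG : S.Good x0 r KU Q) :
    S.Good x0 (r + 1) (S.nextK x0 r KU Q) (S.nextQ x0 r KU Q) := by
  sorry

end ProjSys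
end IE
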