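import Pool.Agent.W_MP_3ab0ed_al.Wm2

/-!
# Windmill, part 3: the displacement theorem

`stg_good` by induction (`Good.next`; stage `0` is clear, `wset = {x0}`). `stg` is increasing. A cone `c`
lies in stage `dist c x0 + 1` (by `far` with `k = 1`). Hence `wK` is the union of the groups of the stages.
-/

namespace IE
namespace ProjSys

variable {Γ X P : Type*} [Group Γ] [MulAction Γ X] [MulAction Γ P] (S : ProjSys Γ X P)

theorem stg_good (x0 : X) (r : ℕ) : S.Good x0 r (S.stg x0 r).1 (S.stg x0 r).2 := by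
  sorry

theorem stg_mono (x0 : X) {r s : ℕ} (h : r ≤ s) :
    (S.stg x0 r).1 ≤ (S.stg x0 s).1 ∧ (S.stg x0 r).2 ⊆ (S.stg x0 s).2 := by
  sorry

theorem mem_stg (x0 : X) (c : P) : c ∈ (S.stg x0 (S.dist c x0 + 1)).2 := by
  sorry

theorem stg_le (x0 : X) (r : ℕ) : (S.stg x0 r).1 ≤ S.wK := by
  sorry

theorem exists_stg (x0 : X) (k : Γ) (hk : k ∈ S.wK) : ∃ r, k ∈ (S.stg x0 r).1 := by
  sorry

instance wK_normal : S.wK.Normal := by
  sorry

/-- The displacement theorem. -/
theorem disp_thm (x : X) (k : Γ) (hk : k ∈ S.wK) (hk1 : k ≠ 1) :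
    ∃ c, S.ell c ≤ S.rho c x (k • x) + 15 * S.Δ := by
  sorry

/-- An element of `wK` fixing the cone `b` and moving the projection of some point to `Y b` by at most
`12Δ` is trivial: let `y ∈ Y b` with `ρ_b(w,y) ≤ Δ` (`proj_pt`); then `ρ_b(y,ky) ≤ 14Δ`, and `disp_thm` at `y`
gives `c` with `ρ_c(y,ky)` large, so `c = b` by `rho_Y`, contradiction. -/
theorem stab_trivial (b : P) (k : Γ) (hk : k ∈ S.wK) (hkb : k • b = b) (w : X)
    (hw : S.rho b w (k • w) ≤ 12 * S.Δ) : k = 1 := by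
  sorry

end ProjSys
end IE
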