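import Pool.Agent.W_MP_3ab0ed_al.Wm3

/-!
# Windmill, part 4: freeness

Fix `x0`; `KU_r, Q_r` the stages, `W_r` the sets `wset`, `N_r` the sets `nset`. Choose `T'_r ⊆ N_r` meeting
every `KU_r`-orbit of `N_r` exactly once, and `T = ⋃ T'_r`.

`ping_pong`: let `hG : Good …`, `T' ⊆ N` such that no two different elements of `T'` are in the same
`KU`-orbit. For `b ∈ N` let `X_b = {z | ∀ w ∈ W, 15Δ < ρ_b(w,z)}`. For `b ≠ b'` in `N`, `z ∈ X_b`:
`ρ_{b'}(w,z) ≤ 15Δ` for all `w ∈ W` (`adj'` and `beh`). Use
`Monoid.CoprodI.lift_injective_of_ping_pong` for the index type `Option T'`, groups `KU` (for `none`) and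
`Subgroup.zpowers (t c)`, with the sets `W ∪ ⋃_{b ∈ N \ T'} X_b` and `X_c`. Conditions: `k ∈ KU`, `k ≠ 1`
maps `X_c` to `X_{kc}`, `kc ∈ N`, and `kc ∉ T'` because `kc = c` is impossible (`stab_trivial`, with
`w = x0`, `conv`). A power `t_c^i`, `i ≠ 0` maps `W` and `X_b`, `b ≠ c`, into `X_c` (`spin`). If
`T'` is empty use the trivial case. (The cardinality hypothesis: `zpowers (t c)` is infinite by `spin` and
`rho_self`.)

Freeness: `FreeGroup.lift` on `T'_0 ∪ … ∪ T'_{r-1}` is injective with range `KU_r` (induction on `r`;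
`FreeGroupBasis.coprodI` or a direct argument), then pass to the union.

Uniqueness of the representative in `T`: if `c, c' ∈ T`, `c' = k c` with `k ∈ wK`, then
`t c' = k t c k⁻¹`; map the free group `wK` to the integers by the exponent sum of the generator `t c`.
-/

namespace IE
namespace ProjSys

variable {Γ X P : Type*} [Group Γ] [MulAction Γ X] [MulAction Γ P] (S : ProjSys Γ X P)

/-- `wK` is free on the rotations `t c`, `c` in a set of representatives of the `wK`-orbits of cones. -/
theorem free_thm (x0 : X) : ∃ T : Set P,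
    (∀ c : P, ∃! b : P, b ∈ T ∧ ∃ k ∈ S.wK, k • b = c) ∧
    Function.Injective (FreeGroup.lift fun c : T => S.t c) ∧
    (FreeGroup.lift fun c : T => S.t c).range = S.wK := by
  sorry

end ProjSys
end IE
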